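import Mathlib

set_option autoImplicit false

namespace Pool.Agent.BVDim

open MeasureTheory Real Complex FourierTransform Convolution

/-- the Fourier transform of an even real function is real -/
theorem fourier_real_of_even (g : ℝ → ℝ) (hg : ∀ x, g (-x) = g x) (x : ℝ) :
    (𝓕 (fun y => (g y : ℂ)) x).im = 0 := by
  have h1 : (starRingEnd ℂ) (𝓕 (fun y => (g y : ℂ)) x) = 𝓕 (fun y => (g y : ℂ)) x := by
    rw [Real.fourier_real_eq_integral_exp_smul]
    rw [← integral_conj]
    rw [← integral_neg_eq_self]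
    congr 1
    funext y
    simp only [smul_eq_mul, map_mul, Complex.conj_ofReal, hg]
    rw [← Complex.exp_conj]
    congr 2
    simp only [map_mul, Complex.conj_ofReal, Complex.conj_I]
    push_cast
    ring
  exact Complex.conj_eq_iff_im.1 h1

theorem exists_cutoff (r : ℝ) (hr : 0 < r) :
    ∃ ψ : ℝ → ℝ, Continuous ψ ∧ (∀ x, 0 ≤ ψ x) ∧ Integrable ψ ∧ (∫ x, ψ x) = 1 ∧
      ∀ t : ℝ, r ≤ |t| → ∫ x : ℝ, Complex.exp (2 * π * (t * x) * I) * (ψ x : ℂ) = 0 := by
  let g : ContDiffBump (0 : ℝ) := ⟨r / 4, r / 2, by linarith, by linarith⟩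
  let gc : ℝ → ℂ := fun x => (g x : ℂ)
  have hgc : Continuous gc := Complex.continuous_ofReal.comp g.continuous
  have hgs : HasCompactSupport gc := g.hasCompactSupport.comp_left (g := fun x : ℝ => (x : ℂ)) (by simp)
  have hgd0 : ContDiff ℝ (⊤ : ℕ∞) (g : ℝ → ℝ) := g.contDiff
  have hgd : ContDiff ℝ (⊤ : ℕ∞) gc := Complex.ofRealCLM.contDiff.comp hgd0
  have hgi : Integrable gc := hgc.integrable_of_hasCompactSupport hgs
  have hsupp : ∀ x, r / 2 ≤ |x| → g x = 0 := by
    intro x hx
    apply g.zero_of_le_dist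
    simpa [Real.dist_eq] using hx
  let s : SchwartzMap ℝ ℂ := hgs.toSchwartzMap hgd
  have hs : (s : ℝ → ℂ) = gc := rfl
  have hFs : (𝓕 s : SchwartzMap ℝ ℂ) = 𝓕 gc := rfl
  have hFi : Integrable (𝓕 gc) := by
    have := (𝓕 s : SchwartzMap ℝ ℂ).integrable (μ := volume)
    rwa [hFs] at this
  have hFc : Continuous (𝓕 gc) := by
    have := (𝓕 s : SchwartzMap ℝ ℂ).continuous
    rwa [hFs] at this
  have hFb : ∃ C, ∀ x, ‖𝓕 gc x‖ ≤ C := by
    refine ⟨∫ x, ‖gc x‖, fun x => ?_⟩
    exact VectorFourier.norm_fourierIntegral_le_integral_norm _ _ _ _ _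
  obtain ⟨C, hC⟩ := hFb
  have him : ∀ x, (𝓕 gc x).im = 0 := fourier_real_of_even (fun x => g x) (fun x => g.neg x)
  have hre : ∀ x, ((𝓕 gc x).re : ℂ) = 𝓕 gc x := fun x => by
    apply Complex.ext
    · simp
    · simp [him x]
  -- the autocorrelation
  let G : ℝ → ℂ := gc ⋆[ContinuousLinearMap.mul ℂ ℂ, volume] gc
  have hGF : ∀ ξ, 𝓕 G ξ = 𝓕 gc ξ * 𝓕 gc ξ := fun ξ => Real.fourier_mul_convolution_eq hgi hgi ξ
  have hGcont : Continuous G :=
    hgs.continuous_convolution_left _ hgc hgc.locallyIntegrable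
  have hGi : Integrable G := hgi.integrable_convolution _ hgi
  have hGFi : Integrable (𝓕 G) := by
    have h1 : (𝓕 G) = fun ξ => 𝓕 gc ξ * 𝓕 gc ξ := funext hGF
    rw [h1]
    exact hFi.bdd_mul hFc.aestronglyMeasurable (Filter.Eventually.of_forall hC)
  have hinv : 𝓕⁻ (𝓕 G) = G := hGcont.fourierInv_fourier_eq hGi hGFi
  have hG0 : ∀ t, r ≤ |t| → G t = 0 := by
    intro t ht
    show (∫ y, gc y * gc (t - y)) = 0
    have : ∀ y, gc y * gc (t - y) = 0 := by
      intro y
      by_cases hy : r / 2 ≤ |y|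
      · simp only [gc, hsupp y hy]; simp
      · have : r / 2 ≤ |t - y| := by
          push Not at hy
          have h1 : |t| ≤ |t - y| + |y| := by
            calc |t| = |(t - y) + y| := by ring_nf
              _ ≤ |t - y| + |y| := abs_add_le _ _
          linarith
        simp only [gc, hsupp _ this]; simp
    simp only [this, integral_zero]
  set A : ℝ := ∫ y, g y * g y with hA
  have hgg : Continuous (fun y => g y * g y) := g.continuous.mul g.continuous
  have hggs : HasCompactSupport (fun y => g y * g y) := g.hasCompactSupport.mul_right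
  have hApos : 0 < A := by
    apply hgg.integral_pos_of_hasCompactSupport_nonneg_nonzero hggs (fun y => mul_self_nonneg _)
      (x := 0)
    have : g 0 = 1 := g.one_of_mem_closedBall (by
      simp only [Metric.mem_closedBall, dist_self]; exact g.rIn_pos.le)
    rw [this]; norm_num
  have hG00 : G 0 = (A : ℂ) := by
    show (∫ y, gc y * gc (0 - y)) = (A : ℂ)
    rw [hA, ← integral_complex_ofReal]
    congr 1
    funext y
    simp only [gc, zero_sub, g.neg]
    push_cast
    ring
  have hexp : ∀ t : ℝ, ∫ x : ℝ, Complex.exp (2 * π * (t * x) * I) * (((𝓕 gc x).re ^ 2 / A : ℝ) : ℂ)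
      = G t / A := by
    intro t
    have h1 : G t = ∫ x : ℝ, Complex.exp (2 * π * (t * x) * I) * (𝓕 G x) := by
      conv_lhs => rw [← hinv]
      rw [Real.fourierInv_eq']
      congr 1
      funext x
      simp only [smul_eq_mul]
      congr 2
      simp
    rw [h1, ← integral_div]
    congr 1
    funext x
    have e1 : 𝓕 G x = ((𝓕 gc x).re : ℂ) * ((𝓕 gc x).re : ℂ) := by rw [hGF x, hre x]
    rw [e1]
    push_cast
    ring
  refine ⟨fun x => (𝓕 gc x).re ^ 2 / A, ?_, ?_, ?_, ?_, ?_⟩
  · exact ((Complex.continuous_re.comp hFc).pow 2).div_const _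
  · intro x; positivity
  · apply Integrable.div_const
    have h1 : (fun x => (𝓕 gc x).re ^ 2) = fun x => (𝓕 G x).re := by
      funext x
      rw [hGF x, ← hre x]
      simp only [Complex.mul_re, Complex.ofReal_re, Complex.ofReal_im]
      ring
    rw [h1]
    exact hGFi.re
  · have h1 := hexp 0
    simp only [Complex.ofReal_zero, zero_mul, mul_zero, Complex.exp_zero, one_mul] at h1
    rw [hG00, div_self (by exact_mod_cast hApos.ne')] at h1
    have h2 : ((∫ x, (𝓕 gc x).re ^ 2 / A : ℝ) : ℂ) = 1 := by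
      rw [← integral_complex_ofReal]; exact h1
    exact_mod_cast h2
  · intro t ht
    have := hexp t
    rw [hG0 t ht, zero_div] at this
    exact this

end Pool.Agent.BVDim
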