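import Mathlib

set_option autoImplicit false

namespace Pool.Agent.BVDim

open MeasureTheory Filter Topology Finset

/-- digit weight: `t` for the bad digits `g ≤ a < q - g`, `1` for the others -/
noncomputable def wl (q g : ℕ) (t : ℝ) (a : ℕ) : ℝ := if g ≤ a ∧ a < q - g then t else 1

/-- product of the digit weights of the last `J` base-`q` digits of `N` -/
noncomputable def wJ (q g : ℕ) (t : ℝ) : ℕ → ℕ → ℝ
  | 0, _ => 1
  | (J + 1), N => wJ q g t J (N / q) * wl q g t (N % q)

theorem wl_pos (q g : ℕ) {t : ℝ} (ht : 0 < t) (a : ℕ) : 0 < wl q g t a := by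
  unfold wl; split_ifs <;> linarith

theorem wJ_pos (q g : ℕ) {t : ℝ} (ht : 0 < t) (J : ℕ) : ∀ N, 0 < wJ q g t J N := by
  induction J with
  | zero => intro N; exact one_pos
  | succ J ih => intro N; exact mul_pos (ih _) (wl_pos q g ht _)

theorem sum_wJ (q g : ℕ) (hq : 0 < q) (t : ℝ) (J : ℕ) :
    ∑ N ∈ range (q ^ J), wJ q g t J N = (∑ a ∈ range q, wl q g t a) ^ J := by
  induction J with
  | zero => simp [wJ]
  | succ J ih =>
    rw [pow_succ (∑ a ∈ range q, wl q g t a), ← ih, Finset.sum_mul_sum, ← Finset.sum_product']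
    apply Finset.sum_nbij' (fun N => (N / q, N % q)) (fun p => p.1 * q + p.2)
    · intro N hN
      rw [Finset.mem_range] at hN
      rw [Finset.mem_product, Finset.mem_range, Finset.mem_range]
      refine ⟨?_, Nat.mod_lt _ hq⟩
      rw [Nat.div_lt_iff_lt_mul hq, ← pow_succ]
      exact hN
    · intro p hp
      rw [Finset.mem_product, Finset.mem_range, Finset.mem_range] at hp
      rw [Finset.mem_range, pow_succ]
      calc p.1 * q + p.2 < p.1 * q + q := by omega
        _ = (p.1 + 1) * q := by ring
        _ ≤ q ^ J * q := Nat.mul_le_mul_right _ hp.1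
    · intro N _
      exact Nat.div_add_mod' N q
    · intro p hp
      rw [Finset.mem_product, Finset.mem_range, Finset.mem_range] at hp
      refine Prod.ext ?_ ?_
      · show (p.1 * q + p.2) / q = p.1
        rw [mul_comm, Nat.mul_add_div hq, Nat.div_eq_of_lt hp.2, add_zero]
      · show (p.1 * q + p.2) % q = p.2
        rw [mul_comm, Nat.mul_add_mod, Nat.mod_eq_of_lt hp.2]
    · intro N _
      rfl

theorem sum_wl_le (q g : ℕ) {t : ℝ} (ht : 0 < t) :
    ∑ a ∈ range q, wl q g t a ≤ 2 * g + t * q := by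
  have h1 : ∀ a ∈ range q, wl q g t a ≤ t + (if a < g then 1 else 0) + (if q - g ≤ a then 1 else 0) := by
    intro a _
    unfold wl
    by_cases h : g ≤ a ∧ a < q - g
    · rw [if_pos h]
      have e1 : ¬ a < g := by omega
      have e2 : ¬ q - g ≤ a := by omega
      rw [if_neg e1, if_neg e2]; linarith
    · rw [if_neg h]
      by_cases h2 : a < g
      · rw [if_pos h2]; split_ifs <;> linarith
      · have e2 : q - g ≤ a := by omega
        rw [if_neg h2, if_pos e2]; linarith
  refine (Finset.sum_le_sum h1).trans ?_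
  rw [Finset.sum_add_distrib, Finset.sum_add_distrib, Finset.sum_const, Finset.card_range,
    ← Finset.sum_filter, ← Finset.sum_filter]
  have h2 : (((range q).filter (fun a => a < g)).card : ℝ) ≤ g := by
    have : ((range q).filter (fun a => a < g)).card ≤ g := by
      calc ((range q).filter (fun a => a < g)).card ≤ (range g).card := by
            apply Finset.card_le_card
            intro a ha
            rw [Finset.mem_filter] at ha
            exact Finset.mem_range.2 ha.2
        _ = g := Finset.card_range g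
    exact_mod_cast this
  have h3 : (((range q).filter (fun a => q - g ≤ a)).card : ℝ) ≤ g := by
    have : ((range q).filter (fun a => q - g ≤ a)).card ≤ g := by
      calc ((range q).filter (fun a => q - g ≤ a)).card ≤ (Finset.Ico (q - g) q).card := by
            apply Finset.card_le_card
            intro a ha
            rw [Finset.mem_filter, Finset.mem_range] at ha
            exact Finset.mem_Ico.2 ⟨ha.2, ha.1⟩
        _ = q - (q - g) := Nat.card_Ico _ _
        _ ≤ g := by omega
    exact_mod_cast this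
  simp only [Finset.sum_const, nsmul_eq_mul, mul_one]
  linarith

/-- the `j`-th digit of `u ∈ [0,1)` in base `q` -/
noncomputable def dig (q j : ℕ) (u : ℝ) : ℕ := ⌊(q : ℝ) ^ (j + 1) * u⌋₊ % q

/-- the indicator of a bad digit -/
noncomputable def bad (q g j : ℕ) (u : ℝ) : ℕ := if g ≤ dig q j u ∧ dig q j u < q - g then 1 else 0

/-- number of bad digits among the first `J` -/
noncomputable def nb (q g J : ℕ) (u : ℝ) : ℕ := ∑ j ∈ range J, bad q g j u

theorem floor_step (q : ℕ) (hq : 0 < q) (J : ℕ) (u : ℝ) :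
    ⌊(q : ℝ) ^ (J + 1) * u⌋₊ / q = ⌊(q : ℝ) ^ J * u⌋₊ := by
  rw [← Nat.floor_div_natCast]
  congr 1
  have : (q : ℝ) ≠ 0 := by exact_mod_cast hq.ne'
  field_simp
  ring

theorem wJ_floor (q g : ℕ) (hq : 0 < q) (t : ℝ) (J : ℕ) (u : ℝ) :
    wJ q g t J ⌊(q : ℝ) ^ J * u⌋₊ = t ^ (nb q g J u) := by
  induction J with
  | zero => simp [wJ, nb]
  | succ J ih =>
    show wJ q g t J (⌊(q : ℝ) ^ (J + 1) * u⌋₊ / q) * wl q g t (⌊(q : ℝ) ^ (J + 1) * u⌋₊ % q) = _
    rw [floor_step q hq, ih]
    have h1 : nb q g (J + 1) u = nb q g J u + bad q g J u := Finset.sum_range_succ _ _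
    rw [h1, pow_add t]
    congr 1
    unfold wl bad
    show (if g ≤ dig q J u ∧ dig q J u < q - g then t else 1) = _
    by_cases hb : g ≤ dig q J u ∧ dig q J u < q - g
    · rw [if_pos hb, if_pos hb, pow_one]
    · rw [if_neg hb, if_neg hb, pow_zero]

/-- cosine test for bad digits -/
theorem bad_le_cos (q g j : ℕ) (hq : 0 < q) (hg : 0 < g) (hgq : 2 * g ≤ q) (u : ℝ) (hu : 0 ≤ u) :
    (bad q g j u : ℝ) * (8 * ((g : ℝ) / q) ^ 2) ≤ 1 - Real.cos (2 * Real.pi * ((q : ℝ) ^ j * u)) := by
  unfold bad
  split_ifs with h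
  · have hqr : (0 : ℝ) < q := by exact_mod_cast hq
    have hgr : (0 : ℝ) < g := by exact_mod_cast hg
    set N : ℕ := ⌊(q : ℝ) ^ (j + 1) * u⌋₊ with hN
    set k : ℕ := N / q with hk
    have hdm : (N : ℝ) = q * k + (dig q j u : ℝ) := by
      have : N = q * (N / q) + N % q := (Nat.div_add_mod N q).symm
      exact_mod_cast this
    have hNle : (N : ℝ) ≤ (q : ℝ) ^ (j + 1) * u := Nat.floor_le (by positivity)
    have hNlt : (q : ℝ) ^ (j + 1) * u < N + 1 := Nat.lt_floor_add_one _
    have h1 : (g : ℝ) ≤ dig q j u := by exact_mod_cast h.1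
    have h2 : (dig q j u : ℝ) + 1 ≤ q - g := by
      have : dig q j u + 1 + g ≤ q := by omega
      have : (dig q j u : ℝ) + 1 + g ≤ q := by exact_mod_cast this
      linarith
    set v : ℝ := (q : ℝ) ^ j * u - k with hv
    have hvq : q * v = (q : ℝ) ^ (j + 1) * u - q * k := by rw [hv]; ring
    have hv1 : (g : ℝ) / q ≤ v := by
      rw [div_le_iff₀ hqr, mul_comm v]; rw [hvq]; linarith
    have hv2 : v ≤ 1 - (g : ℝ) / q := by
      have : q * v ≤ q - g := by rw [hvq]; linarith
      have h3 : q * (1 - (g : ℝ) / q) = q - g := by field_simp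
      nlinarith
    have hcos : Real.cos (2 * Real.pi * ((q : ℝ) ^ j * u)) = 1 - 2 * Real.sin (Real.pi * v) ^ 2 := by
      have e1 : 2 * Real.pi * ((q : ℝ) ^ j * u) = 2 * (Real.pi * v) + (k : ℝ) * (2 * Real.pi) := by
        rw [hv]; ring
      rw [e1, Real.cos_add_nat_mul_two_pi, Real.cos_two_mul, Real.sin_sq]
      ring
    rw [hcos]
    have hd : (g : ℝ) / q ≤ 1 / 2 := by
      rw [div_le_iff₀ hqr]
      have : (2 : ℝ) * g ≤ q := by exact_mod_cast hgq
      linarith
    have hd0 : 0 < (g : ℝ) / q := by positivity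
    have hsin : 2 * ((g : ℝ) / q) ≤ Real.sin (Real.pi * v) := by
      rcases le_total v (1 / 2) with hv3 | hv3
      · have h4 := Real.mul_le_sin (x := Real.pi * v) (by
          have := Real.pi_pos; have : 0 ≤ v := hd0.le.trans hv1; positivity) (by
          have := Real.pi_pos; nlinarith)
        have h5 : 2 / Real.pi * (Real.pi * v) = 2 * v := by
          have := Real.pi_ne_zero; field_simp
        rw [h5] at h4
        linarith
      · have h6 : Real.sin (Real.pi * v) = Real.sin (Real.pi * (1 - v)) := by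
          rw [← Real.sin_pi_sub]; congr 1; ring
        rw [h6]
        have h4 := Real.mul_le_sin (x := Real.pi * (1 - v)) (by
          have := Real.pi_pos; have : 0 ≤ 1 - v := by linarith
          positivity) (by
          have := Real.pi_pos; nlinarith)
        have h5 : 2 / Real.pi * (Real.pi * (1 - v)) = 2 * (1 - v) := by
          have := Real.pi_ne_zero; field_simp
        rw [h5] at h4
        linarith
    have h7 : (2 * ((g : ℝ) / q)) ^ 2 ≤ Real.sin (Real.pi * v) ^ 2 :=
      pow_le_pow_left₀ (by positivity) hsin 2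
    push_cast
    nlinarith
  · have := Real.cos_le_one (2 * Real.pi * ((q : ℝ) ^ j * u))
    push_cast
    linarith

end Pool.Agent.BVDim
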