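import Mathlib
import Pool.Agent.BVDim.Digits

set_option autoImplicit false

namespace Pool.Agent.BVDim

open MeasureTheory MeasureTheory.Measure Filter Topology Finset ENNReal Metric

/-- points of the unit cube with few bad digits at infinitely many scales -/
def Eset (d q g : ℕ) : Set (Fin d → ℝ) :=
  {u | (∀ i, 0 ≤ u i ∧ u i < 1) ∧ ∃ᶠ J in (atTop : Filter ℕ), 16 * ∑ i, nb q g J (u i) ≤ d * J}

/-- `q`-adic cube -/
def cube (d q J : ℕ) (N : Fin d → ℕ) : Set (Fin d → ℝ) :=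
  {u | ∀ i, (N i : ℝ) ≤ (q : ℝ) ^ J * u i ∧ (q : ℝ) ^ J * u i < N i + 1}

theorem ediam_cube (d q J : ℕ) (hq : 0 < q) (N : Fin d → ℕ) :
    ediam (cube d q J N) ≤ ENNReal.ofReal (((q : ℝ) ^ J)⁻¹) := by
  apply Metric.ediam_le
  intro x hx y hy
  rw [edist_pi_le_iff]
  intro i
  rw [edist_dist, Real.dist_eq]
  apply ENNReal.ofReal_le_ofReal
  have hqJ : (0 : ℝ) < (q : ℝ) ^ J := by positivity
  have h1 := hx i
  have h2 := hy i
  have h3 : |x i - y i| * (q : ℝ) ^ J ≤ 1 := by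
    have e : |x i - y i| * (q : ℝ) ^ J = |(x i - y i) * (q : ℝ) ^ J| := by
      rw [abs_mul, abs_of_pos hqJ]
    rw [e, abs_le]
    constructor <;> nlinarith
  rwa [← le_div_iff₀ hqJ, one_div] at h3

/-- the cubes needed at scale `J` -/
noncomputable def CC (d q g : ℕ) (t θ : ℝ) (J : ℕ) : Finset (Fin d → ℕ) :=
  (Fintype.piFinset (fun _ : Fin d => range (q ^ J))).filter
    (fun N => (θ ^ (d * J))⁻¹ ≤ ∏ i, wJ q g t J (N i))

theorem card_CC (d q g : ℕ) (hq : 0 < q) {t θ W : ℝ} (ht : 0 < t) (hθ : 1 ≤ θ)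
    (hW : ∑ a ∈ range q, wl q g t a ≤ W) (J : ℕ) :
    ((CC d q g t θ J).card : ℝ) ≤ ((θ * W) ^ d) ^ J := by
  have hθp : (0 : ℝ) < θ ^ (d * J) := by positivity
  have h1 : ((CC d q g t θ J).card : ℝ) * (θ ^ (d * J))⁻¹ ≤
      ∑ N ∈ Fintype.piFinset (fun _ : Fin d => range (q ^ J)), ∏ i, wJ q g t J (N i) := by
    calc ((CC d q g t θ J).card : ℝ) * (θ ^ (d * J))⁻¹
        = ∑ N ∈ CC d q g t θ J, (θ ^ (d * J))⁻¹ := by rw [Finset.sum_const, nsmul_eq_mul]
      _ ≤ ∑ N ∈ CC d q g t θ J, ∏ i, wJ q g t J (N i) := by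
          apply Finset.sum_le_sum
          intro N hN
          exact (Finset.mem_filter.1 hN).2
      _ ≤ _ := by
          apply Finset.sum_le_sum_of_subset_of_nonneg (Finset.filter_subset _ _)
          intro N _ _
          exact Finset.prod_nonneg (fun i _ => (wJ_pos q g ht J _).le)
  rw [Finset.sum_prod_piFinset (range (q ^ J)) (fun _ : Fin d => wJ q g t J)] at h1
  simp only [Finset.prod_const, Finset.card_univ, Fintype.card_fin] at h1
  rw [sum_wJ q g hq t J] at h1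
  have hwl : 0 ≤ ∑ a ∈ range q, wl q g t a := Finset.sum_nonneg (fun a _ => (wl_pos q g ht a).le)
  have h2 : ((∑ a ∈ range q, wl q g t a) ^ J) ^ d ≤ (W ^ J) ^ d := by
    gcongr
  have h3 : ((CC d q g t θ J).card : ℝ) ≤ (W ^ J) ^ d * θ ^ (d * J) := by
    rw [← div_eq_mul_inv, div_le_iff₀ hθp] at h1
    exact h1.trans (mul_le_mul_of_nonneg_right h2 hθp.le)
  refine h3.trans (le_of_eq ?_)
  rw [mul_pow, mul_pow, ← pow_mul, ← pow_mul, ← pow_mul]
  ring

theorem subset_cubes (d q g : ℕ) (hq : 0 < q) {t θ : ℝ} (hθ : 1 ≤ θ)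
    (hθt : t * θ ^ 16 = 1) (n : ℕ) :
    Eset d q g ⊆ ⋃ p : (k : ℕ) × (CC d q g t θ (n + k)), cube d q (n + p.1) p.2 := by
  rintro u ⟨hu, hfreq⟩
  rw [Filter.frequently_atTop] at hfreq
  obtain ⟨J, hJn, hJ⟩ := hfreq n
  obtain ⟨k, rfl⟩ := Nat.exists_eq_add_of_le hJn
  rw [Set.mem_iUnion]
  have hqJ : (0 : ℝ) < (q : ℝ) ^ (n + k) := by positivity
  refine ⟨⟨k, ⟨fun i => ⌊(q : ℝ) ^ (n + k) * u i⌋₊, ?_⟩⟩, ?_⟩
  · unfold CC
    rw [Finset.mem_filter, Fintype.mem_piFinset]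
    constructor
    · intro i
      rw [Finset.mem_range, Nat.floor_lt (mul_nonneg hqJ.le (hu i).1)]
      push_cast
      have := (hu i).2
      nlinarith
    · simp_rw [wJ_floor q g hq t]
      rw [Finset.prod_pow_eq_pow_sum]
      have h1 : t = (θ ^ 16)⁻¹ := eq_inv_of_mul_eq_one_left hθt
      rw [h1, inv_pow, ← pow_mul]
      apply inv_anti₀ (by positivity)
      exact pow_le_pow_right₀ hθ hJ
  · intro i
    constructor
    · exact Nat.floor_le (mul_nonneg hqJ.le (hu i).1)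
    · exact Nat.lt_floor_add_one _

theorem hausdorff_null (d q g : ℕ) (hq : 2 ≤ q) {t θ W s : ℝ} (ht : 0 < t) (hθ : 1 ≤ θ)
    (hθt : t * θ ^ 16 = 1) (hW : ∑ a ∈ range q, wl q g t a ≤ W) (hs : 0 < s)
    (hρ : (θ * W) ^ d < (q : ℝ) ^ s) : μH[s] (Eset d q g) = 0 := by
  have hq0 : 0 < q := by omega
  have hqr : (1 : ℝ) < q := by exact_mod_cast hq
  have hqr0 : (0 : ℝ) < q := by linarith
  have hW0 : 0 ≤ W := le_trans (Finset.sum_nonneg (fun a _ => (wl_pos q g ht a).le)) hW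
  set ρ : ℝ := (θ * W) ^ d * ((q : ℝ) ^ s)⁻¹ with hρdef
  have hqs : (0 : ℝ) < (q : ℝ) ^ s := Real.rpow_pos_of_pos hqr0 s
  have hρ0 : 0 ≤ ρ := by positivity
  have hρ1 : ρ < 1 := by
    rw [hρdef, ← div_eq_mul_inv, div_lt_one hqs]; exact hρ
  -- tail bound
  have htail : ∀ n : ℕ, ∑' p : (k : ℕ) × (CC d q g t θ (n + k)),
      ediam (cube d q (n + p.1) p.2) ^ s ≤ ENNReal.ofReal (ρ ^ n * (1 - ρ)⁻¹) := by
    intro n
    rw [ENNReal.tsum_sigma']
    have h1 : ∀ k : ℕ, ∑' N : (CC d q g t θ (n + k)), ediam (cube d q (n + k) N) ^ s ≤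
        ENNReal.ofReal (ρ ^ (n + k)) := by
      intro k
      have h2 : ∀ N : (CC d q g t θ (n + k)), ediam (cube d q (n + k) N) ^ s ≤
          ENNReal.ofReal ((((q : ℝ) ^ s)⁻¹) ^ (n + k)) := by
        intro N
        have h3 := ENNReal.rpow_le_rpow (ediam_cube d q (n + k) hq0 N) hs.le
        refine h3.trans (le_of_eq ?_)
        rw [ENNReal.ofReal_rpow_of_nonneg (by positivity) hs.le]
        congr 1
        rw [Real.inv_rpow (by positivity), inv_pow]
        congr 1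
        rw [← Real.rpow_natCast, ← Real.rpow_natCast, ← Real.rpow_mul hqr0.le,
          ← Real.rpow_mul hqr0.le, mul_comm]
      calc ∑' N : (CC d q g t θ (n + k)), ediam (cube d q (n + k) N) ^ s
          ≤ ∑' N : (CC d q g t θ (n + k)), ENNReal.ofReal ((((q : ℝ) ^ s)⁻¹) ^ (n + k)) :=
            ENNReal.tsum_le_tsum h2
        _ = ((CC d q g t θ (n + k)).card : ℝ≥0∞) * ENNReal.ofReal ((((q : ℝ) ^ s)⁻¹) ^ (n + k)) := by
            rw [tsum_fintype, Finset.sum_const, nsmul_eq_mul]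
            simp
        _ = ENNReal.ofReal ((CC d q g t θ (n + k)).card * (((q : ℝ) ^ s)⁻¹) ^ (n + k)) := by
            rw [ENNReal.ofReal_mul (by positivity), ENNReal.ofReal_natCast]
        _ ≤ ENNReal.ofReal (ρ ^ (n + k)) := by
            apply ENNReal.ofReal_le_ofReal
            rw [hρdef, mul_pow]
            exact mul_le_mul_of_nonneg_right (card_CC d q g hq0 ht hθ hW (n + k)) (by positivity)
    refine (ENNReal.tsum_le_tsum h1).trans ?_
    have hsum : Summable (fun k : ℕ => ρ ^ (n + k)) := by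
      simp_rw [pow_add]
      exact (summable_geometric_of_lt_one hρ0 hρ1).mul_left _
    rw [← ENNReal.ofReal_tsum_of_nonneg (fun k => by positivity) hsum]
    apply ENNReal.ofReal_le_ofReal
    simp_rw [pow_add]
    rw [tsum_mul_left, tsum_geometric_of_lt_one hρ0 hρ1]
  have hdiam0 : Tendsto (fun n : ℕ => ENNReal.ofReal (((q : ℝ) ^ n)⁻¹)) atTop (𝓝 0) := by
    rw [← ENNReal.ofReal_zero]
    apply ENNReal.tendsto_ofReal
    exact tendsto_inv_atTop_zero.comp (tendsto_pow_atTop_atTop_of_one_lt hqr)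
  have hmain := hausdorffMeasure_le_liminf_tsum (X := Fin d → ℝ) (β := ℕ)
    (ι := fun n => (k : ℕ) × (CC d q g t θ (n + k))) s (Eset d q g) (l := atTop)
    (fun n => ENNReal.ofReal (((q : ℝ) ^ n)⁻¹)) hdiam0
    (fun n p => cube d q (n + p.1) p.2)
    (Eventually.of_forall fun n p => by
      refine (ediam_cube d q (n + p.1) hq0 p.2).trans ?_
      apply ENNReal.ofReal_le_ofReal
      apply inv_anti₀ (by positivity)
      exact pow_le_pow_right₀ hqr.le (by omega))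
    (Eventually.of_forall fun n => subset_cubes d q g hq0 hθ hθt n)
  refine le_antisymm (hmain.trans ?_) bot_le
  have hlim : Tendsto (fun n : ℕ => ENNReal.ofReal (ρ ^ n * (1 - ρ)⁻¹)) atTop (𝓝 0) := by
    rw [← ENNReal.ofReal_zero]
    apply ENNReal.tendsto_ofReal
    have := (tendsto_pow_atTop_nhds_zero_of_lt_one hρ0 hρ1).mul_const ((1 - ρ)⁻¹)
    rwa [zero_mul] at this
  rw [← hlim.liminf_eq]
  exact liminf_le_liminf (Eventually.of_forall htail)

end Pool.Agent.BVDim
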