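import Mathlib

set_option autoImplicit false

namespace Pool.Agent.BVDim

open Complex Finset

/-- tent sequence -/
noncomputable def tent (M : ℕ) (k : ℤ) : ℝ := max 0 ((M : ℝ) - |(k : ℝ)|)

theorem tent_nonneg (M : ℕ) (k : ℤ) : 0 ≤ tent M k := le_max_left _ _

theorem tent_neg (M : ℕ) (k : ℤ) : tent M (-k) = tent M k := by
  unfold tent; simp

theorem tent_eq_zero (M : ℕ) (k : ℤ) (h : (M : ℤ) ≤ |k|) : tent M k = 0 := by
  unfold tent
  apply max_eq_left
  have : ((M : ℤ) : ℝ) ≤ ((|k| : ℤ) : ℝ) := by exact_mod_cast h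
  push_cast at this
  linarith

theorem tent_eq (M : ℕ) (k : ℤ) (h : |k| ≤ (M : ℤ)) : tent M k = (M : ℝ) - |(k : ℝ)| := by
  unfold tent
  apply max_eq_right
  have : ((|k| : ℤ) : ℝ) ≤ ((M : ℤ) : ℝ) := by exact_mod_cast h
  push_cast at this
  linarith

/-- index set -/
noncomputable def TT (M : ℕ) : Finset ℤ := Finset.Icc (-(M : ℤ)) M

theorem mem_TT (M : ℕ) (k : ℤ) : k ∈ TT M ↔ |k| ≤ M := by
  unfold TT; rw [Finset.mem_Icc, abs_le]

theorem sum_neg_TT {E : Type*} [AddCommMonoid E] (M : ℕ) (F : ℤ → E) :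
    ∑ k ∈ TT M, F (-k) = ∑ k ∈ TT M, F k := by
  apply Finset.sum_nbij' (fun k => -k) (fun k => -k)
  · intro k hk; rw [mem_TT] at *; simpa using hk
  · intro k hk; rw [mem_TT] at *; simpa using hk
  · intro k _; simp
  · intro k _; simp
  · intro k _; rfl

noncomputable def AA (M : ℕ) : ℝ := ∑ k ∈ TT M, tent M k * tent M k

noncomputable def cc (M : ℕ) (n : ℤ) : ℝ := (∑ k ∈ TT M, tent M k * tent M (n - k)) / AA M

theorem AA_lower (M : ℕ) : (M : ℝ) ^ 3 / 4 ≤ AA M := by
  unfold AA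
  have hsub : Finset.Icc (-((M / 2 : ℕ) : ℤ)) ((M / 2 : ℕ) : ℤ) ⊆ TT M := by
    intro k hk
    rw [Finset.mem_Icc] at hk
    rw [mem_TT, abs_le]
    omega
  have h1 : ∑ k ∈ Finset.Icc (-((M / 2 : ℕ) : ℤ)) ((M / 2 : ℕ) : ℤ), ((M : ℝ) / 2) * ((M : ℝ) / 2) ≤
      ∑ k ∈ TT M, tent M k * tent M k := by
    refine le_trans (Finset.sum_le_sum ?_) (Finset.sum_le_sum_of_subset_of_nonneg hsub
      (fun k _ _ => mul_self_nonneg _))
    intro k hk
    rw [Finset.mem_Icc] at hk
    have h2 : |k| ≤ (M : ℤ) := by rw [abs_le]; omega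
    have h3 : (2 : ℤ) * |k| ≤ M := by
      rcases abs_cases k with h | h <;> omega
    have h4 : (2 : ℝ) * |(k : ℝ)| ≤ M := by exact_mod_cast h3
    have h5 : (M : ℝ) / 2 ≤ tent M k := by
      rw [tent_eq M k h2]; linarith
    exact mul_self_le_mul_self (by positivity) h5
  refine le_trans ?_ h1
  rw [Finset.sum_const, Int.card_Icc, nsmul_eq_mul]
  have h6 : ((M : ℝ)) ≤ ((((M / 2 : ℕ) : ℤ) + 1 - (-((M / 2 : ℕ) : ℤ))).toNat : ℝ) := by
    have : M ≤ (((M / 2 : ℕ) : ℤ) + 1 - (-((M / 2 : ℕ) : ℤ))).toNat := by omega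
    exact_mod_cast this
  have h7 : (0 : ℝ) ≤ (M : ℝ) / 2 * ((M : ℝ) / 2) := by positivity
  nlinarith [mul_le_mul_of_nonneg_right h6 h7]

theorem AA_pos (M : ℕ) (hM : 1 ≤ M) : 0 < AA M := by
  have h1 := AA_lower M
  have h2 : (1 : ℝ) ≤ M := by exact_mod_cast hM
  have h3 : (0 : ℝ) < (M : ℝ) ^ 3 / 4 := by positivity
  linarith

theorem cc_zero (M : ℕ) (hM : 1 ≤ M) : cc M 0 = 1 := by
  unfold cc
  have : (∑ k ∈ TT M, tent M k * tent M (0 - k)) = AA M := by
    unfold AA
    apply Finset.sum_congr rfl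
    intro k _
    rw [zero_sub, tent_neg]
  rw [this, div_self (AA_pos M hM).ne']

theorem cc_neg (M : ℕ) (n : ℤ) : cc M (-n) = cc M n := by
  unfold cc
  congr 1
  rw [← sum_neg_TT]
  apply Finset.sum_congr rfl
  intro k _
  rw [tent_neg, show -n - -k = -(n - k) by ring, tent_neg]

theorem cc_eq_zero (M : ℕ) (n : ℤ) (hn : 2 * (M : ℤ) ≤ |n|) : cc M n = 0 := by
  unfold cc
  have : (∑ k ∈ TT M, tent M k * tent M (n - k)) = 0 := by
    apply Finset.sum_eq_zero
    intro k hk
    rw [mem_TT] at hk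
    rw [tent_eq_zero M (n - k), mul_zero]
    have := abs_sub_abs_le_abs_sub n k
    omega
  rw [this, zero_div]

theorem cc_one (M : ℕ) (hM : 1 ≤ M) : 1 - cc M 1 = M / AA M := by
  unfold cc
  have hA := (AA_pos M hM).ne'
  rw [eq_div_iff hA, sub_mul, div_mul_cancel₀ _ hA, one_mul]
  unfold AA
  rw [← Finset.sum_sub_distrib]
  let s : ℤ → ℝ := fun k => if k ≤ 0 then 1 else -1
  have h1 : ∀ k ∈ TT M, tent M k * tent M k - tent M k * tent M (1 - k) = tent M k * s k := by
    intro k hk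
    rw [mem_TT, abs_le] at hk
    rw [← mul_sub]
    have e1 : tent M (1 - k) = tent M (k - 1) := by
      rw [← tent_neg]; congr 1; ring
    rw [e1]
    by_cases hk0 : k ≤ 0
    · simp only [s, if_pos hk0]
      by_cases hkM : k = -(M : ℤ)
      · rw [tent_eq_zero M k (by rw [hkM]; simp), zero_mul, zero_mul]
      · rw [tent_eq M k (by rw [abs_le]; omega), tent_eq M (k - 1) (by rw [abs_le]; omega)]
        have h2 : (k : ℝ) ≤ 0 := by exact_mod_cast hk0
        rw [abs_of_nonpos h2]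
        push_cast
        rw [abs_of_nonpos (by linarith : (k : ℝ) - 1 ≤ 0)]
        ring
    · simp only [s, if_neg hk0]
      push Not at hk0
      rw [tent_eq M k (by rw [abs_le]; omega), tent_eq M (k - 1) (by rw [abs_le]; omega)]
      have h2 : (1 : ℝ) ≤ (k : ℝ) := by exact_mod_cast hk0
      rw [abs_of_nonneg (by linarith : (0 : ℝ) ≤ (k : ℝ))]
      push_cast
      rw [abs_of_nonneg (by linarith : (0 : ℝ) ≤ (k : ℝ) - 1)]
      ring
  rw [Finset.sum_congr rfl h1]
  have h2 : (∑ k ∈ TT M, tent M k * s k) + (∑ k ∈ TT M, tent M k * s k) = 2 * M := by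
    conv_lhs => rw [← sum_neg_TT M (fun k => tent M k * s k)]
    have h3 : ∑ k ∈ TT M, tent M (-k) * s (-k) + ∑ k ∈ TT M, tent M (-k) * s (-k) =
        ∑ k ∈ TT M, tent M k * s k + ∑ k ∈ TT M, tent M (-k) * s (-k) := by
      rw [sum_neg_TT M (fun k => tent M k * s k)]
    rw [h3, ← Finset.sum_add_distrib]
    have h4 : ∀ k ∈ TT M, tent M k * s k + tent M (-k) * s (-k) =
        if k = 0 then 2 * (M : ℝ) else 0 := by
      intro k hk
      rw [tent_neg, ← mul_add]
      by_cases hk0 : k = 0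
      · subst hk0
        simp only [s]
        rw [tent_eq M 0 (by simp)]
        simp
        ring
      · rw [if_neg hk0]
        by_cases hk1 : k ≤ 0
        · have : ¬ (-k ≤ 0) := by omega
          simp only [s, if_pos hk1, if_neg this]; ring
        · have : (-k ≤ 0) := by omega
          simp only [s, if_neg hk1, if_pos this]; ring
    rw [Finset.sum_congr rfl h4, Finset.sum_ite_eq' (TT M) 0]
    rw [if_pos (by rw [mem_TT]; simp)]
  linarith

/-- the exponential -/
noncomputable def ee (t : ℝ) : ℂ := Complex.exp (2 * Real.pi * t * I)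

theorem ee_add (s t : ℝ) : ee (s + t) = ee s * ee t := by
  unfold ee
  rw [← Complex.exp_add]
  congr 1
  push_cast
  ring

theorem ee_conj (t : ℝ) : (starRingEnd ℂ) (ee t) = ee (-t) := by
  unfold ee
  rw [← Complex.exp_conj]
  congr 1
  rw [map_mul, map_mul, map_mul, Complex.conj_I, Complex.conj_ofReal, Complex.conj_ofReal,
    Complex.conj_ofNat]
  push_cast
  ring

theorem ee_zero : ee 0 = 1 := by unfold ee; simp

theorem norm_ee (t : ℝ) : ‖ee t‖ = 1 := by
  unfold ee
  rw [show (2 * Real.pi * t * I : ℂ) = ((2 * Real.pi * t : ℝ) : ℂ) * I by push_cast; ring]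
  exact Complex.norm_exp_ofReal_mul_I _

theorem continuous_ee : Continuous ee := by
  unfold ee
  fun_prop

theorem ee_int (n : ℤ) : ee n = 1 := by
  unfold ee
  rw [Complex.exp_eq_one_iff]
  exact ⟨n, by push_cast; ring⟩

noncomputable def PP (M : ℕ) (y : ℝ) : ℂ := ∑ k ∈ TT M, (tent M k : ℂ) * ee (k * y)

theorem PP_conj (M : ℕ) (y : ℝ) : (starRingEnd ℂ) (PP M y) = PP M y := by
  unfold PP
  rw [map_sum, ← sum_neg_TT M (fun k => (tent M k : ℂ) * ee (k * y))]
  apply Finset.sum_congr rfl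
  intro k _
  rw [map_mul, Complex.conj_ofReal, ee_conj, tent_neg]
  congr 2
  push_cast
  ring

theorem PP_sq (M : ℕ) (y : ℝ) :
    PP M y * PP M y = ∑ n ∈ TT (2 * M), ((∑ k ∈ TT M, tent M k * tent M (n - k) : ℝ) : ℂ) * ee (n * y) := by
  have h1 : ∀ n ∈ TT (2 * M), ((∑ k ∈ TT M, tent M k * tent M (n - k) : ℝ) : ℂ) * ee (n * y) =
      ∑ k ∈ TT M, ((tent M k : ℂ) * ee (k * y)) * ((tent M (n - k) : ℂ) * ee (((n - k : ℤ) : ℝ) * y)) := by
    intro n _
    push_cast
    rw [Finset.sum_mul]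
    apply Finset.sum_congr rfl
    intro k _
    rw [show (n : ℝ) * y = (k : ℝ) * y + ((n : ℝ) - k) * y by ring, ee_add]
    ring
  rw [Finset.sum_congr rfl h1, Finset.sum_comm]
  conv_lhs => rw [show PP M y * PP M y = (∑ k ∈ TT M, (tent M k : ℂ) * ee (k * y)) * PP M y from rfl]
  rw [Finset.sum_mul]
  apply Finset.sum_congr rfl
  intro k hk
  rw [← Finset.mul_sum]
  congr 1
  unfold PP
  rw [mem_TT] at hk
  symm
  calc ∑ n ∈ TT (2 * M), ((tent M (n - k) : ℂ) * ee (((n - k : ℤ) : ℝ) * y))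
      = ∑ l ∈ (TT (2 * M)).map ⟨fun n => n - k, sub_left_injective⟩,
          ((tent M l : ℂ) * ee ((l : ℝ) * y)) := by
        rw [Finset.sum_map]; rfl
    _ = ∑ l ∈ TT M, ((tent M l : ℂ) * ee ((l : ℝ) * y)) := by
        symm
        apply Finset.sum_subset
        · intro l hl
          rw [Finset.mem_map]
          refine ⟨l + k, ?_, by show l + k - k = l; ring⟩
          rw [mem_TT] at hl ⊢
          have := abs_add_le l k
          push_cast
          omega
        · intro l _ hl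
          rw [mem_TT] at hl
          rw [tent_eq_zero M l (by omega)]
          simp

/-- The Jackson kernel: nonnegative trigonometric polynomial. -/
noncomputable def ff (M : ℕ) (y : ℝ) : ℝ := (PP M y).re ^ 2 / AA M

theorem ff_nonneg (M : ℕ) (hM : 1 ≤ M) (y : ℝ) : 0 ≤ ff M y := by
  unfold ff
  have := AA_pos M hM
  positivity

theorem continuous_PP (M : ℕ) : Continuous (PP M) := by
  unfold PP
  apply continuous_finsetSum
  intro k _
  exact continuous_const.mul (continuous_ee.comp (continuous_const.mul continuous_id))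

theorem continuous_ff (M : ℕ) : Continuous (ff M) := by
  unfold ff
  exact ((Complex.continuous_re.comp (continuous_PP M)).pow 2).div_const _

theorem ff_expansion (M : ℕ) (y : ℝ) :
    (ff M y : ℂ) = ∑ n ∈ TT (2 * M), (cc M n : ℂ) * ee (n * y) := by
  unfold ff cc
  have h1 : ((PP M y).re : ℂ) = PP M y := Complex.conj_eq_iff_re.1 (PP_conj M y)
  push_cast
  rw [h1, pow_two, PP_sq, Finset.sum_div]
  apply Finset.sum_congr rfl
  intro n _
  push_cast
  ring

theorem cc_one_lower (M : ℕ) (hM : 1 ≤ M) : 1 - cc M 1 ≤ 4 / (M : ℝ) ^ 2 := by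
  rw [cc_one M hM]
  have h1 := AA_lower M
  have h2 : (1 : ℝ) ≤ M := by exact_mod_cast hM
  rw [div_le_div_iff₀ (AA_pos M hM) (by positivity)]
  nlinarith

end Pool.Agent.BVDim
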