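import Mathlib
import Pool.Agent.BVDim.Kernel
import Pool.Agent.BVDim.Cutoff

set_option autoImplicit false

namespace Pool.Agent.BVDim

open MeasureTheory Complex Filter Topology Finset

structure IsCutoff (κ : ℝ) (ψ : ℝ → ℝ) : Prop where
  cont : Continuous ψ
  nonneg : ∀ x, 0 ≤ ψ x
  integrable : Integrable ψ
  int_one : (∫ x, ψ x) = 1
  vanish : ∀ t : ℝ, κ ≤ |t| → ∫ x : ℝ, ee (t * x) * (ψ x : ℂ) = 0

theorem exists_isCutoff (κ : ℝ) (hκ : 0 < κ) : ∃ ψ, IsCutoff κ ψ := by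
  obtain ⟨ψ, h1, h2, h3, h4, h5⟩ := exists_cutoff κ hκ
  refine ⟨ψ, h1, h2, h3, h4, ?_⟩
  intro t ht
  have := h5 t ht
  rw [← this]
  congr 1
  funext x
  unfold ee
  push_cast
  rfl

/-- partial Riesz products -/
noncomputable def GG (M q J : ℕ) (x : ℝ) : ℝ := ∏ j ∈ range J, ff M ((q : ℝ) ^ j * x)

theorem GG_zero (M q : ℕ) (x : ℝ) : GG M q 0 x = 1 := by simp [GG]

theorem GG_succ (M q J : ℕ) (x : ℝ) : GG M q (J + 1) x = GG M q J x * ff M ((q : ℝ) ^ J * x) := by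
  unfold GG; rw [Finset.prod_range_succ]

theorem GG_nonneg (M q J : ℕ) (hM : 1 ≤ M) (x : ℝ) : 0 ≤ GG M q J x :=
  Finset.prod_nonneg (fun _ _ => ff_nonneg M hM _)

theorem continuous_GG (M q J : ℕ) : Continuous (GG M q J) := by
  unfold GG
  apply continuous_finsetProd
  intro j _
  exact (continuous_ff M).comp (continuous_const.mul continuous_id)

theorem ff_bounded (M : ℕ) (hM : 1 ≤ M) : ∃ B : ℝ, 0 ≤ B ∧ ∀ y, ff M y ≤ B := by
  refine ⟨∑ n ∈ TT (2 * M), |cc M n|, Finset.sum_nonneg (fun _ _ => abs_nonneg _), fun y => ?_⟩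
  have h1 : ‖(ff M y : ℂ)‖ ≤ ∑ n ∈ TT (2 * M), |cc M n| := by
    rw [ff_expansion]
    refine (norm_sum_le _ _).trans (Finset.sum_le_sum fun n _ => ?_)
    rw [norm_mul, norm_ee, mul_one, Complex.norm_real, Real.norm_eq_abs]
  rw [Complex.norm_real, Real.norm_of_nonneg (ff_nonneg M hM y)] at h1
  exact h1

theorem GG_bounded (M q J : ℕ) (hM : 1 ≤ M) : ∃ B : ℝ, ∀ x, ‖GG M q J x‖ ≤ B := by
  obtain ⟨B, hB, h⟩ := ff_bounded M hM
  refine ⟨B ^ J, fun x => ?_⟩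
  rw [Real.norm_of_nonneg (GG_nonneg M q J hM x)]
  unfold GG
  calc ∏ j ∈ range J, ff M ((q : ℝ) ^ j * x) ≤ ∏ j ∈ range J, B :=
        Finset.prod_le_prod (fun _ _ => ff_nonneg M hM _) (fun _ _ => h _)
    _ = B ^ J := by simp

noncomputable def dens (M q J : ℕ) (ψ : ℝ → ℝ) (x : ℝ) : ℝ := ψ x * GG M q J x

theorem dens_nonneg {M q J : ℕ} (hM : 1 ≤ M) {κ : ℝ} {ψ : ℝ → ℝ} (hψ : IsCutoff κ ψ) (x : ℝ) :
    0 ≤ dens M q J ψ x := mul_nonneg (hψ.nonneg x) (GG_nonneg M q J hM x)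

theorem dens_integrable {M q J : ℕ} (hM : 1 ≤ M) {κ : ℝ} {ψ : ℝ → ℝ} (hψ : IsCutoff κ ψ) :
    Integrable (dens M q J ψ) := by
  obtain ⟨B, hB⟩ := GG_bounded M q J hM
  exact hψ.integrable.mul_bdd (continuous_GG M q J).aestronglyMeasurable (Eventually.of_forall hB)

theorem dens_cont {M q J : ℕ} {κ : ℝ} {ψ : ℝ → ℝ} (hψ : IsCutoff κ ψ) :
    Continuous (dens M q J ψ) := hψ.cont.mul (continuous_GG M q J)

noncomputable def Phi (M q : ℕ) (ψ : ℝ → ℝ) (J : ℕ) (t : ℝ) : ℂ :=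
  ∫ x : ℝ, ee (t * x) * ((dens M q J ψ x : ℝ) : ℂ)

theorem Phi_integrable {M q J : ℕ} (hM : 1 ≤ M) {κ : ℝ} {ψ : ℝ → ℝ} (hψ : IsCutoff κ ψ) (t : ℝ) :
    Integrable (fun x : ℝ => ee (t * x) * ((dens M q J ψ x : ℝ) : ℂ)) := by
  apply Integrable.bdd_mul (c := 1) (dens_integrable hM hψ).ofReal
  · exact (continuous_ee.comp (continuous_const.mul continuous_id)).aestronglyMeasurable
  · exact Eventually.of_forall (fun x => (norm_ee _).le)

theorem Phi_succ {M q J : ℕ} (hM : 1 ≤ M) {κ : ℝ} {ψ : ℝ → ℝ} (hψ : IsCutoff κ ψ) (t : ℝ) :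
    Phi M q ψ (J + 1) t = ∑ n ∈ TT (2 * M), (cc M n : ℂ) * Phi M q ψ J (t + n * (q : ℝ) ^ J) := by
  unfold Phi
  simp_rw [← integral_const_mul]
  rw [← integral_finsetSum]
  · congr 1
    funext x
    unfold dens
    rw [GG_succ]
    push_cast
    rw [ff_expansion]
    rw [Finset.mul_sum, Finset.mul_sum, Finset.mul_sum]
    apply Finset.sum_congr rfl
    intro n _
    rw [show (t + n * (q : ℝ) ^ J) * x = t * x + n * ((q : ℝ) ^ J * x) by ring, ee_add]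
    ring
  · intro n _
    exact (Phi_integrable hM hψ _).const_mul _

theorem Phi_zero_eq {M q : ℕ} {ψ : ℝ → ℝ} (t : ℝ) :
    Phi M q ψ 0 t = ∫ x : ℝ, ee (t * x) * (ψ x : ℂ) := by
  unfold Phi dens
  simp only [GG_zero, mul_one]

/-- the support bound -/
theorem Phi_supp {M q : ℕ} (hM : 1 ≤ M) {κ : ℝ} {ψ : ℝ → ℝ} (hψ : IsCutoff κ ψ)
    (hq : 2 * (M : ℝ) ≤ κ * ((q : ℝ) - 1)) (J : ℕ) :
    ∀ t : ℝ, κ * (q : ℝ) ^ J ≤ |t| → Phi M q ψ J t = 0 := by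
  induction J with
  | zero =>
    intro t ht
    rw [pow_zero, mul_one] at ht
    rw [Phi_zero_eq]
    exact hψ.vanish t ht
  | succ J ih =>
    intro t ht
    rw [Phi_succ hM hψ]
    apply Finset.sum_eq_zero
    intro n hn
    rw [mem_TT] at hn
    rw [ih, mul_zero]
    have h1 : |(n : ℝ)| ≤ 2 * M := by exact_mod_cast hn
    have hqJ : (0 : ℝ) ≤ (q : ℝ) ^ J := by positivity
    have h2 : |t| ≤ |t + n * (q : ℝ) ^ J| + |(n : ℝ)| * (q : ℝ) ^ J := by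
      calc |t| = |(t + n * (q : ℝ) ^ J) - n * (q : ℝ) ^ J| := by ring_nf
        _ ≤ |t + n * (q : ℝ) ^ J| + |n * (q : ℝ) ^ J| := abs_sub _ _
        _ = |t + n * (q : ℝ) ^ J| + |(n : ℝ)| * (q : ℝ) ^ J := by
            rw [abs_mul, abs_of_nonneg hqJ]
    have h3 : κ * (q : ℝ) ^ (J + 1) = κ * q * (q : ℝ) ^ J := by ring
    rw [h3] at ht
    have h4 : |(n : ℝ)| * (q : ℝ) ^ J ≤ κ * ((q : ℝ) - 1) * (q : ℝ) ^ J :=
      mul_le_mul_of_nonneg_right (h1.trans hq) hqJ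
    nlinarith

/-- stabilisation -/
theorem Phi_stable {M q : ℕ} (hM : 1 ≤ M) {κ : ℝ} {ψ : ℝ → ℝ} (hψ : IsCutoff κ ψ)
    (hq : 2 * (M : ℝ) ≤ κ * ((q : ℝ) - 1)) (hκ : κ ≤ 1 / 2) (J : ℕ) (t : ℝ)
    (ht : |t| ≤ (q : ℝ) ^ J / 2) : Phi M q ψ (J + 1) t = Phi M q ψ J t := by
  rw [Phi_succ hM hψ]
  rw [Finset.sum_eq_single 0]
  · rw [cc_zero M hM]
    simp
  · intro n _ hn
    rw [Phi_supp hM hψ hq, mul_zero]
    have h1 : (1 : ℝ) ≤ |(n : ℝ)| := by exact_mod_cast Int.one_le_abs hn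
    have hqJ : (0 : ℝ) ≤ (q : ℝ) ^ J := by positivity
    have h2 : |n * (q : ℝ) ^ J| ≤ |t + n * (q : ℝ) ^ J| + |t| := by
      calc |n * (q : ℝ) ^ J| = |(t + n * (q : ℝ) ^ J) - t| := by ring_nf
        _ ≤ |t + n * (q : ℝ) ^ J| + |t| := abs_sub _ _
    rw [abs_mul, abs_of_nonneg hqJ] at h2
    nlinarith
  · intro h
    exact absurd ((mem_TT _ _).2 (by simp)) h

theorem Phi_stable_le {M q : ℕ} (hM : 1 ≤ M) {κ : ℝ} {ψ : ℝ → ℝ} (hψ : IsCutoff κ ψ)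
    (hq : 2 * (M : ℝ) ≤ κ * ((q : ℝ) - 1)) (hκ : κ ≤ 1 / 2) (hq1 : 1 ≤ q) (J K : ℕ) (hJK : J ≤ K)
    (t : ℝ) (ht : |t| ≤ (q : ℝ) ^ J / 2) : Phi M q ψ K t = Phi M q ψ J t := by
  induction K, hJK using Nat.le_induction with
  | base => rfl
  | succ K hK ih =>
    rw [Phi_stable hM hψ hq hκ K t, ih]
    refine ht.trans ?_
    have h1 : (1 : ℝ) ≤ q := by exact_mod_cast hq1
    have := pow_le_pow_right₀ h1 hK
    linarith

/-- the limit of the Fourier transforms -/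
theorem exists_PhiInf {M q : ℕ} (hM : 1 ≤ M) {κ : ℝ} {ψ : ℝ → ℝ} (hψ : IsCutoff κ ψ)
    (hq : 2 * (M : ℝ) ≤ κ * ((q : ℝ) - 1)) (hκ : κ ≤ 1 / 2) (hq1 : 2 ≤ q) :
    ∃ φ : ℝ → ℂ, ∀ J (t : ℝ), |t| ≤ (q : ℝ) ^ J / 2 → Phi M q ψ J t = φ t := by
  have hex : ∀ t : ℝ, ∃ J : ℕ, |t| ≤ (q : ℝ) ^ J / 2 := by
    intro t
    have h2 : (1 : ℝ) < q := by exact_mod_cast hq1
    obtain ⟨J, hJ⟩ := pow_unbounded_of_one_lt (2 * |t|) h2
    exact ⟨J, by linarith⟩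
  choose N hN using hex
  refine ⟨fun t => Phi M q ψ (N t) t, ?_⟩
  intro J t ht
  rcases le_total J (N t) with h | h
  · exact (Phi_stable_le hM hψ hq hκ (by omega) J (N t) h t ht).symm
  · exact (Phi_stable_le hM hψ hq hκ (by omega) (N t) J h t (hN t))

/-- the approximating measures -/
noncomputable def sig (M q J : ℕ) (ψ : ℝ → ℝ) : Measure ℝ :=
  volume.withDensity (fun x => ENNReal.ofReal (dens M q J ψ x))

theorem integral_sig {M q J : ℕ} (hM : 1 ≤ M) {κ : ℝ} {ψ : ℝ → ℝ} (hψ : IsCutoff κ ψ)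
    (g : ℝ → ℂ) : ∫ x, g x ∂(sig M q J ψ) = ∫ x, g x * ((dens M q J ψ x : ℝ) : ℂ) := by
  unfold sig
  rw [integral_withDensity_eq_integral_toReal_smul]
  · congr 1
    funext x
    rw [ENNReal.toReal_ofReal (dens_nonneg hM hψ x)]
    rw [Complex.real_smul, mul_comm]
  · exact (dens_cont hψ).measurable.ennreal_ofReal
  · exact Eventually.of_forall (fun x => ENNReal.ofReal_lt_top)

theorem charFun_sig {M q J : ℕ} (hM : 1 ≤ M) {κ : ℝ} {ψ : ℝ → ℝ} (hψ : IsCutoff κ ψ) (s : ℝ) :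
    charFun (sig M q J ψ) s = Phi M q ψ J (s / (2 * Real.pi)) := by
  rw [charFun_apply_real, integral_sig hM hψ]
  unfold Phi
  congr 1
  funext x
  congr 1
  unfold ee
  congr 1
  push_cast
  have : (Real.pi : ℂ) ≠ 0 := by exact_mod_cast Real.pi_ne_zero
  field_simp

theorem isProb_sig {M q J : ℕ} (hM : 1 ≤ M) {κ : ℝ} {ψ : ℝ → ℝ} (hψ : IsCutoff κ ψ)
    (hq : 2 * (M : ℝ) ≤ κ * ((q : ℝ) - 1)) (hκ : κ ≤ 1 / 2) (hq1 : 2 ≤ q) :
    IsProbabilityMeasure (sig M q J ψ) := by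
  constructor
  unfold sig
  rw [withDensity_apply _ MeasurableSet.univ, Measure.restrict_univ,
    ← ofReal_integral_eq_lintegral_ofReal (dens_integrable hM hψ)
      (Eventually.of_forall (dens_nonneg hM hψ))]
  have h1 : ((∫ x, dens M q J ψ x : ℝ) : ℂ) = 1 := by
    have h2 := Phi_stable_le hM hψ hq hκ (by omega) 0 J (Nat.zero_le _) 0 (by simp)
    rw [Phi_zero_eq] at h2
    unfold Phi at h2
    simp only [zero_mul, ee_zero, one_mul] at h2
    rw [integral_complex_ofReal, integral_complex_ofReal, hψ.int_one] at h2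
    exact_mod_cast h2
  have h3 : (∫ x, dens M q J ψ x) = 1 := by exact_mod_cast h1
  rw [h3]
  simp

/-- existence of the limit measure -/
theorem exists_limit_measure {M q : ℕ} (hM : 1 ≤ M) {κ : ℝ} {ψ : ℝ → ℝ} (hψ : IsCutoff κ ψ)
    (hq : 2 * (M : ℝ) ≤ κ * ((q : ℝ) - 1)) (hκ : κ ≤ 1 / 2) (hq1 : 2 ≤ q) :
    ∃ σ : Measure ℝ, IsProbabilityMeasure σ ∧
      ∀ J (t : ℝ), |t| ≤ (q : ℝ) ^ J / 2 → charFun σ (2 * Real.pi * t) = Phi M q ψ J t := by
  obtain ⟨φ, hφ⟩ := exists_PhiInf hM hψ hq hκ hq1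
  have : ∀ J, IsProbabilityMeasure (sig M q J ψ) := fun J => isProb_sig hM hψ hq hκ hq1
  have hq1' : (1 : ℝ) < q := by exact_mod_cast hq1
  have hpi : (0 : ℝ) < 2 * Real.pi := by positivity
  have hlim : ∀ s, Tendsto (fun J => charFun (sig M q J ψ) s) atTop (𝓝 (φ (s / (2 * Real.pi)))) := by
    intro s
    obtain ⟨J, hJ⟩ := pow_unbounded_of_one_lt (2 * |s / (2 * Real.pi)|) hq1'
    apply tendsto_const_nhds.congr'
    filter_upwards [eventually_ge_atTop J] with K hK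
    rw [charFun_sig hM hψ, hφ K]
    have := pow_le_pow_right₀ hq1'.le hK
    linarith
  have hcont : ContinuousAt (fun s : ℝ => φ (s / (2 * Real.pi))) 0 := by
    have h1 : ContinuousAt (fun s : ℝ => charFun (sig M q 0 ψ) s) 0 := by fun_prop
    refine h1.congr ?_
    have h2 : ∀ᶠ s : ℝ in 𝓝 0, |s / (2 * Real.pi)| < 1 / 2 := by
      have h3 : ContinuousAt (fun s : ℝ => |s / (2 * Real.pi)|) 0 := by fun_prop
      apply h3.eventually_lt continuousAt_const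
      simp
    filter_upwards [h2] with s hs
    rw [charFun_sig hM hψ, hφ 0]
    rw [pow_zero]; exact hs.le
  have htight := isTightMeasureSet_of_tendsto_charFun hcont hlim
  let μ : ℕ → ProbabilityMeasure ℝ := fun J => ⟨sig M q J ψ, this J⟩
  have hcompact : IsCompact (closure (Set.range μ)) := by
    apply isCompact_closure_of_isTightMeasureSet
    have : {((μ' : ProbabilityMeasure ℝ) : Measure ℝ) | μ' ∈ Set.range μ} =
        Set.range (fun J => sig M q J ψ) := by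
      ext m
      constructor
      · rintro ⟨μ', ⟨J, rfl⟩, rfl⟩
        exact ⟨J, rfl⟩
      · rintro ⟨J, rfl⟩
        exact ⟨μ J, ⟨J, rfl⟩, rfl⟩
    rw [this]
    exact htight
  obtain ⟨σ, -, hσ⟩ := hcompact.ultrafilter_le_nhds ((hyperfilter ℕ).map μ) (by
    rw [Filter.le_principal_iff]
    refine Filter.mem_of_superset (?_ : Set.range μ ∈ _) subset_closure
    show ∀ᶠ J in (hyperfilter ℕ : Filter ℕ), μ J ∈ Set.range μ
    exact Eventually.of_forall (fun J => ⟨J, rfl⟩))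
  have hσ' : Tendsto μ (hyperfilter ℕ : Filter ℕ) (𝓝 σ) := hσ
  have hU : (hyperfilter ℕ : Filter ℕ) ≤ atTop := by
    rw [← Nat.cofinite_eq_atTop]
    exact hyperfilter_le_cofinite
  have hchar : ∀ s, charFun (σ : Measure ℝ) s = φ (s / (2 * Real.pi)) := by
    intro s
    have h1 : Tendsto (fun J => charFun (sig M q J ψ) s) (hyperfilter ℕ : Filter ℕ)
        (𝓝 (φ (s / (2 * Real.pi)))) := (hlim s).mono_left hU
    have h2 : Tendsto (fun J => charFun (sig M q J ψ) s) (hyperfilter ℕ : Filter ℕ)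
        (𝓝 (charFun (σ : Measure ℝ) s)) := by
      rw [ProbabilityMeasure.tendsto_iff_forall_integral_rclike_tendsto ℂ] at hσ'
      simp_rw [charFun_eq_integral_innerProbChar]
      exact hσ' (BoundedContinuousFunction.innerProbChar s)
    exact tendsto_nhds_unique h2 h1
  refine ⟨σ, inferInstance, ?_⟩
  intro J t ht
  rw [hchar, mul_div_cancel_left₀ _ hpi.ne', hφ J t ht]

end Pool.Agent.BVDim
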