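import Mathlib
import Pool.Agent.BVDim.Measure1D
import Pool.Agent.BVDim.Dimension

set_option autoImplicit false

namespace Pool.Agent.BVDim

open MeasureTheory MeasureTheory.Measure Filter Topology Finset ENNReal

/-- what we need to know about the one-dimensional measure -/
structure IsLimit (M q : ℕ) (ψ : ℝ → ℝ) (σ : Measure ℝ) : Prop where
  prob : IsProbabilityMeasure σ
  char : ∀ J (t : ℝ), |t| ≤ (q : ℝ) ^ J / 2 → charFun σ (2 * Real.pi * t) = Phi M q ψ J t

section oneD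

variable {M q : ℕ} {κ : ℝ} {ψ : ℝ → ℝ} {σ : Measure ℝ}

theorem char_at_pow (hM : 1 ≤ M) (hψ : IsCutoff κ ψ) (hq : 2 * (M : ℝ) ≤ κ * ((q : ℝ) - 1))
    (hκ : κ ≤ 1 / 2) (hq1 : 2 ≤ q) (hσ : IsLimit M q ψ σ) (j : ℕ) :
    charFun σ (2 * Real.pi * (q : ℝ) ^ j) = (cc M 1 : ℂ) := by
  have hqr : (2 : ℝ) ≤ q := by exact_mod_cast hq1
  have hqj : (0 : ℝ) < (q : ℝ) ^ j := by positivity
  rw [hσ.char (j + 1)]
  · rw [Phi_succ hM hψ, Finset.sum_eq_single (-1 : ℤ)]
    · rw [cc_neg]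
      have h1 : Phi M q ψ j ((q : ℝ) ^ j + ((-1 : ℤ) : ℝ) * (q : ℝ) ^ j) = 1 := by
        rw [show (q : ℝ) ^ j + ((-1 : ℤ) : ℝ) * (q : ℝ) ^ j = 0 by push_cast; ring]
        rw [Phi_stable_le hM hψ hq hκ (by omega) 0 j (Nat.zero_le _) 0 (by simp), Phi_zero_eq]
        simp only [zero_mul, ee_zero, one_mul]
        rw [integral_complex_ofReal, hψ.int_one]
        simp
      rw [h1, mul_one]
    · intro n _ hn
      rw [Phi_supp hM hψ hq, mul_zero]
      have h1 : (1 : ℝ) ≤ |1 + (n : ℝ)| := by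
        have : (1 : ℤ) ≤ |1 + n| := Int.one_le_abs (by omega)
        exact_mod_cast this
      rw [show (q : ℝ) ^ j + (n : ℝ) * (q : ℝ) ^ j = (1 + n) * (q : ℝ) ^ j by ring, abs_mul,
        abs_of_pos hqj]
      nlinarith
    · intro h
      exact absurd ((mem_TT _ _).2 (by rw [abs_neg, abs_one]; omega)) h
  · rw [abs_of_pos hqj, pow_succ]
    nlinarith

theorem integral_cos (hM : 1 ≤ M) (hψ : IsCutoff κ ψ) (hq : 2 * (M : ℝ) ≤ κ * ((q : ℝ) - 1))
    (hκ : κ ≤ 1 / 2) (hq1 : 2 ≤ q) (hσ : IsLimit M q ψ σ) (j : ℕ) :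
    ∫ x, Real.cos (2 * Real.pi * ((q : ℝ) ^ j * x)) ∂σ = cc M 1 := by
  have := hσ.prob
  have h1 := char_at_pow hM hψ hq hκ hq1 hσ j
  rw [charFun_apply_real] at h1
  have h2 := congrArg Complex.re h1
  rw [Complex.ofReal_re] at h2
  rw [← h2]
  have hint : Integrable (fun x : ℝ => Complex.exp ((2 * Real.pi * (q : ℝ) ^ j : ℝ) * x * Complex.I)) σ := by
    apply Integrable.of_bound (C := 1)
    · fun_prop
    · refine Eventually.of_forall (fun x => ?_)
      rw [← Complex.ofReal_mul, Complex.norm_exp_ofReal_mul_I]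
  have h3 := integral_re hint
  simp only [RCLike.re_to_complex] at h3
  rw [← h3]
  congr 1
  funext x
  rw [← Complex.ofReal_mul, Complex.exp_ofReal_mul_I_re]
  congr 1
  ring

theorem cos_fract (q j : ℕ) (x : ℝ) :
    Real.cos (2 * Real.pi * ((q : ℝ) ^ j * Int.fract x)) =
      Real.cos (2 * Real.pi * ((q : ℝ) ^ j * x)) := by
  have h1 : 2 * Real.pi * ((q : ℝ) ^ j * x) =
      2 * Real.pi * ((q : ℝ) ^ j * Int.fract x) + ((((q : ℤ) ^ j * ⌊x⌋ : ℤ)) : ℝ) * (2 * Real.pi) := by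
    have : x = Int.fract x + ⌊x⌋ := (Int.fract_add_floor x).symm
    conv_lhs => rw [this]
    push_cast
    ring
  rw [h1, Real.cos_add_int_mul_two_pi]

theorem measurable_dig (q j : ℕ) : Measurable (fun x : ℝ => dig q j (Int.fract x)) := by
  unfold dig
  have h1 : Measurable (fun x : ℝ => (q : ℝ) ^ (j + 1) * Int.fract x) :=
    measurable_fract.const_mul _
  have h2 : Measurable (fun x : ℝ => ⌊(q : ℝ) ^ (j + 1) * Int.fract x⌋₊) := h1.nat_floor
  exact (measurable_of_countable (fun n : ℕ => n % q)).comp h2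

theorem measurable_bad (q g j : ℕ) : Measurable (fun x : ℝ => bad q g j (Int.fract x)) :=
  (measurable_of_countable (fun a : ℕ => if g ≤ a ∧ a < q - g then 1 else 0)).comp
    (measurable_dig q j)

theorem measurable_nb (q g J : ℕ) : Measurable (fun x : ℝ => nb q g J (Int.fract x)) := by
  unfold nb
  exact Finset.measurable_sum _ (fun j _ => measurable_bad q g j)

theorem bad_lintegral (hM : 1 ≤ M) (hψ : IsCutoff κ ψ) (hq : 2 * (M : ℝ) ≤ κ * ((q : ℝ) - 1))
    (hκ : κ ≤ 1 / 2) (hq1 : 2 ≤ q) (hσ : IsLimit M q ψ σ) (g : ℕ) (hg : 0 < g) (hgq : 2 * g ≤ q)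
    (hgM : 4 * (q : ℝ) ≤ g * M) (j : ℕ) :
    ∫⁻ x, (bad q g j (Int.fract x) : ℝ≥0∞) ∂σ ≤ ENNReal.ofReal (1 / 32) := by
  have := hσ.prob
  have hqr : (0 : ℝ) < q := by have : (2 : ℝ) ≤ q := by exact_mod_cast hq1
                               linarith
  have hgr : (0 : ℝ) < g := by exact_mod_cast hg
  have hMr : (0 : ℝ) < M := by exact_mod_cast hM
  set δ : ℝ := (g : ℝ) / q with hδ
  have hδ0 : 0 < δ := by positivity
  have hint : Integrable (fun x : ℝ => 1 - Real.cos (2 * Real.pi * ((q : ℝ) ^ j * x))) σ := by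
    apply Integrable.of_bound (C := 2)
    · exact (by fun_prop : Continuous _).aestronglyMeasurable
    · refine Eventually.of_forall (fun x => ?_)
      rw [Real.norm_eq_abs, abs_le]
      have h1 := Real.cos_le_one (2 * Real.pi * ((q : ℝ) ^ j * x))
      have h2 := Real.neg_one_le_cos (2 * Real.pi * ((q : ℝ) ^ j * x))
      constructor <;> linarith
  have hint2 : Integrable (fun x : ℝ => Real.cos (2 * Real.pi * ((q : ℝ) ^ j * x))) σ := by
    apply Integrable.of_bound (C := 1)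
    · exact (by fun_prop : Continuous _).aestronglyMeasurable
    · refine Eventually.of_forall (fun x => ?_)
      rw [Real.norm_eq_abs]
      exact Real.abs_cos_le_one _
  calc ∫⁻ x, (bad q g j (Int.fract x) : ℝ≥0∞) ∂σ
      ≤ ∫⁻ x, ENNReal.ofReal ((1 - Real.cos (2 * Real.pi * ((q : ℝ) ^ j * x))) * (8 * δ ^ 2)⁻¹) ∂σ := by
        apply lintegral_mono
        intro x
        have h1 := bad_le_cos q g j (by omega) hg hgq (Int.fract x) (Int.fract_nonneg x)
        rw [cos_fract] at h1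
        show (bad q g j (Int.fract x) : ℝ≥0∞) ≤
          ENNReal.ofReal ((1 - Real.cos (2 * Real.pi * ((q : ℝ) ^ j * x))) * (8 * δ ^ 2)⁻¹)
        rw [← ENNReal.ofReal_natCast]
        apply ENNReal.ofReal_le_ofReal
        rw [← div_eq_mul_inv, le_div_iff₀ (by positivity)]
        exact h1
    _ = ENNReal.ofReal (∫ x, (1 - Real.cos (2 * Real.pi * ((q : ℝ) ^ j * x))) * (8 * δ ^ 2)⁻¹ ∂σ) := by
        rw [ofReal_integral_eq_lintegral_ofReal (hint.mul_const _)]
        refine Eventually.of_forall (fun x => ?_)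
        have h1 := Real.cos_le_one (2 * Real.pi * ((q : ℝ) ^ j * x))
        have : 0 ≤ 1 - Real.cos (2 * Real.pi * ((q : ℝ) ^ j * x)) := by linarith
        positivity
    _ ≤ ENNReal.ofReal (1 / 32) := by
        apply ENNReal.ofReal_le_ofReal
        rw [integral_mul_const, integral_sub (integrable_const 1) hint2,
          integral_cos hM hψ hq hκ hq1 hσ j]
        simp only [integral_const, probReal_univ, smul_eq_mul, mul_one]
        have h1 := cc_one_lower M hM
        rw [← div_eq_mul_inv, div_le_iff₀ (by positivity)]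
        have h3 : 4 / (M : ℝ) ^ 2 ≤ 1 / 32 * (8 * δ ^ 2) := by
          rw [div_le_iff₀ (by positivity)]
          have h4 : 4 ≤ δ * M := by
            rw [hδ, div_mul_eq_mul_div, le_div_iff₀ hqr]; exact hgM
          have h5 : 16 ≤ (δ * M) ^ 2 := by nlinarith
          calc (4 : ℝ) ≤ 1 / 4 * (δ * M) ^ 2 := by linarith
            _ = 1 / 32 * (8 * δ ^ 2) * (M : ℝ) ^ 2 := by ring
        linarith

end oneD

section nD

variable {M q : ℕ} {κ : ℝ} {ψ : ℝ → ℝ} {σ : Measure ℝ}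

/-- points of `ℝ^d` with few bad digits at scale `J` -/
def AJ (d q g J : ℕ) : Set (Fin d → ℝ) := {x | 16 * ∑ i, nb q g J (Int.fract (x i)) ≤ d * J}

/-- points with few bad digits at infinitely many scales -/
def EE (d q g : ℕ) : Set (Fin d → ℝ) := {x | ∃ᶠ J in (atTop : Filter ℕ), x ∈ AJ d q g J}

theorem measurableSet_AJ (d q g J : ℕ) : MeasurableSet (AJ d q g J) := by
  have h1 : Measurable (fun x : Fin d → ℝ => 16 * ∑ i, nb q g J (Int.fract (x i))) := by
    apply Measurable.const_mul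
    exact Finset.measurable_sum _ (fun i _ => (measurable_nb q g J).comp (measurable_pi_apply i))
  exact h1 (measurableSet_Iic (a := d * J))

theorem EE_eq (d q g : ℕ) : EE d q g = ⋂ n : ℕ, ⋃ J : ℕ, AJ d q g (n + J) := by
  ext x
  simp only [EE, Set.mem_ofPred_eq, Filter.frequently_atTop, Set.mem_iInter, Set.mem_iUnion]
  constructor
  · intro h n
    obtain ⟨J, hJ, hx⟩ := h n
    obtain ⟨k, rfl⟩ := Nat.exists_eq_add_of_le hJ
    exact ⟨k, hx⟩
  · intro h n
    obtain ⟨k, hx⟩ := h n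
    exact ⟨n + k, by omega, hx⟩

theorem measurableSet_EE (d q g : ℕ) : MeasurableSet (EE d q g) := by
  rw [EE_eq]
  exact MeasurableSet.iInter (fun n => MeasurableSet.iUnion (fun J => measurableSet_AJ d q g _))

theorem measure_AJ (hM : 1 ≤ M) (hψ : IsCutoff κ ψ) (hq : 2 * (M : ℝ) ≤ κ * ((q : ℝ) - 1))
    (hκ : κ ≤ 1 / 2) (hq1 : 2 ≤ q) (hσ : IsLimit M q ψ σ) (g : ℕ) (hg : 0 < g) (hgq : 2 * g ≤ q)
    (hgM : 4 * (q : ℝ) ≤ g * M) (d : ℕ) (hd : 0 < d) (J : ℕ) (hJ : 0 < J) :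
    (Measure.pi (fun _ : Fin d => σ)) (AJ d q g J)ᶜ ≤ ENNReal.ofReal (1 / 2) := by
  have := hσ.prob
  set Λ := Measure.pi (fun _ : Fin d => σ) with hΛ
  let F : (Fin d → ℝ) → ℝ≥0∞ := fun x => ∑ i, ∑ j ∈ range J, (bad q g j (Int.fract (x i)) : ℝ≥0∞)
  have hFm : Measurable F := by
    apply Finset.measurable_sum
    intro i _
    apply Finset.measurable_sum
    intro j _
    exact (measurable_of_countable (fun n : ℕ => (n : ℝ≥0∞))).comp
      ((measurable_bad q g j).comp (measurable_pi_apply i))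
  have hFint : ∫⁻ x, F x ∂Λ ≤ ENNReal.ofReal ((d * J : ℕ) * (1 / 32)) := by
    rw [lintegral_finsetSum]
    · have h1 : ∀ i : Fin d, ∫⁻ x : Fin d → ℝ, ∑ j ∈ range J, (bad q g j (Int.fract (x i)) : ℝ≥0∞) ∂Λ ≤
          ENNReal.ofReal (J * (1 / 32)) := by
        intro i
        rw [lintegral_finsetSum]
        · have h2 : ∀ j ∈ range J, ∫⁻ x : Fin d → ℝ, (bad q g j (Int.fract (x i)) : ℝ≥0∞) ∂Λ ≤
              ENNReal.ofReal (1 / 32) := by
            intro j _
            have h3 : ∫⁻ x : Fin d → ℝ, (bad q g j (Int.fract (x i)) : ℝ≥0∞) ∂Λ =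
                ∫⁻ y, (bad q g j (Int.fract y) : ℝ≥0∞) ∂σ := by
              exact (measurePreserving_eval (fun _ : Fin d => σ) i).lintegral_comp
                (f := fun y : ℝ => (bad q g j (Int.fract y) : ℝ≥0∞))
                ((measurable_of_countable (fun n : ℕ => (n : ℝ≥0∞))).comp (measurable_bad q g j))
            rw [h3]
            exact bad_lintegral hM hψ hq hκ hq1 hσ g hg hgq hgM j
          refine (Finset.sum_le_sum h2).trans (le_of_eq ?_)
          rw [Finset.sum_const, Finset.card_range, nsmul_eq_mul, ENNReal.ofReal_mul (by positivity),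
            ENNReal.ofReal_natCast]
        · intro j _
          exact (measurable_of_countable (fun n : ℕ => (n : ℝ≥0∞))).comp
            ((measurable_bad q g j).comp (measurable_pi_apply i))
      refine (Finset.sum_le_sum (fun i _ => h1 i)).trans (le_of_eq ?_)
      rw [Finset.sum_const, Finset.card_univ, Fintype.card_fin, nsmul_eq_mul]
      push_cast
      rw [mul_assoc, ENNReal.ofReal_mul (p := (d : ℝ)) (by positivity), ENNReal.ofReal_natCast]
    · intro i _
      apply Finset.measurable_sum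
      intro j _
      exact (measurable_of_countable (fun n : ℕ => (n : ℝ≥0∞))).comp
        ((measurable_bad q g j).comp (measurable_pi_apply i))
  have hdJ : (0 : ℝ) < ((d * J : ℕ) : ℝ) := by exact_mod_cast Nat.mul_pos hd hJ
  have hsub : (AJ d q g J)ᶜ ⊆ {x | ENNReal.ofReal ((d * J : ℕ) * (1 / 16)) ≤ F x} := by
    intro x hx
    have h1 : d * J < 16 * ∑ i, nb q g J (Int.fract (x i)) := by
      simpa [AJ] using hx
    show _ ≤ F x
    have h2 : F x = ((∑ i, nb q g J (Int.fract (x i)) : ℕ) : ℝ≥0∞) := by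
      show (∑ i, ∑ j ∈ range J, (bad q g j (Int.fract (x i)) : ℝ≥0∞)) = _
      unfold nb
      push_cast
      rfl
    rw [h2, ← ENNReal.ofReal_natCast (∑ i, nb q g J (Int.fract (x i)))]
    apply ENNReal.ofReal_le_ofReal
    have h3 : ((d * J : ℕ) : ℝ) ≤ 16 * ((∑ i, nb q g J (Int.fract (x i)) : ℕ) : ℝ) := by
      exact_mod_cast h1.le
    linarith
  refine (measure_mono hsub).trans ?_
  refine (meas_ge_le_lintegral_div hFm.aemeasurable (by
    rw [Ne, ENNReal.ofReal_eq_zero, not_le]; positivity) ENNReal.ofReal_ne_top).trans ?_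
  rw [ENNReal.div_le_iff (by rw [Ne, ENNReal.ofReal_eq_zero, not_le]; positivity)
    ENNReal.ofReal_ne_top]
  refine hFint.trans (le_of_eq ?_)
  rw [← ENNReal.ofReal_mul (by norm_num)]
  congr 1
  ring

theorem measure_EE (hM : 1 ≤ M) (hψ : IsCutoff κ ψ) (hq : 2 * (M : ℝ) ≤ κ * ((q : ℝ) - 1))
    (hκ : κ ≤ 1 / 2) (hq1 : 2 ≤ q) (hσ : IsLimit M q ψ σ) (g : ℕ) (hg : 0 < g) (hgq : 2 * g ≤ q)
    (hgM : 4 * (q : ℝ) ≤ g * M) (d : ℕ) (hd : 0 < d) :
    (Measure.pi (fun _ : Fin d => σ)) (EE d q g) ≠ 0 := by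
  have := hσ.prob
  set Λ := Measure.pi (fun _ : Fin d => σ) with hΛ
  have hA : ∀ J, 0 < J → ENNReal.ofReal (1 / 2) ≤ Λ (AJ d q g J) := by
    intro J hJ
    have h1 := measure_AJ hM hψ hq hκ hq1 hσ g hg hgq hgM d hd J hJ
    have h2 : Λ (AJ d q g J) + Λ (AJ d q g J)ᶜ = 1 := by
      rw [measure_add_measure_compl (measurableSet_AJ d q g J), measure_univ]
    by_contra hlt
    rw [not_le] at hlt
    have h3 : Λ (AJ d q g J) + Λ (AJ d q g J)ᶜ < ENNReal.ofReal (1 / 2) + ENNReal.ofReal (1 / 2) :=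
      ENNReal.add_lt_add_of_lt_of_le (measure_ne_top _ _) hlt h1
    rw [h2, ← ENNReal.ofReal_add (by norm_num) (by norm_num)] at h3
    norm_num at h3
  rw [EE_eq]
  have hanti : Antitone (fun n : ℕ => ⋃ J : ℕ, AJ d q g (n + J)) := by
    intro n m hnm
    show (⋃ J : ℕ, AJ d q g (m + J)) ⊆ ⋃ J : ℕ, AJ d q g (n + J)
    apply Set.iUnion_subset
    intro J
    obtain ⟨k, rfl⟩ := Nat.exists_eq_add_of_le hnm
    exact Set.subset_iUnion_of_subset (k + J) (by rw [← add_assoc])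
  rw [hanti.measure_iInter (fun n => (MeasurableSet.iUnion
    (fun J => measurableSet_AJ d q g _)).nullMeasurableSet) ⟨0, measure_ne_top _ _⟩]
  have h1 : ENNReal.ofReal (1 / 2) ≤ ⨅ n : ℕ, Λ (⋃ J : ℕ, AJ d q g (n + J)) := by
    apply le_iInf
    intro n
    refine (hA (n + 1) (by omega)).trans (measure_mono ?_)
    exact Set.subset_iUnion (fun J : ℕ => AJ d q g (n + J)) 1
  intro h0
  rw [h0] at h1
  have : (0 : ℝ≥0∞) < ENNReal.ofReal (1 / 2) := ENNReal.ofReal_pos.2 (by norm_num)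
  exact absurd h1 (not_le.2 this)

theorem EE_subset (d q g : ℕ) :
    EE d q g ⊆ ⋃ z : Fin d → ℤ, (fun u : Fin d → ℝ => (fun i => (z i : ℝ)) + u) '' (Eset d q g) := by
  intro x hx
  rw [Set.mem_iUnion]
  refine ⟨fun i => ⌊x i⌋, fun i => Int.fract (x i), ⟨fun i => ⟨Int.fract_nonneg _, Int.fract_lt_one _⟩, hx⟩, ?_⟩
  funext i
  exact Int.floor_add_fract (x i)

theorem dimH_EE_le (d q g : ℕ) (hq : 2 ≤ q) {t θ W : ℝ} {s : NNReal} (ht : 0 < t) (hθ : 1 ≤ θ)
    (hθt : t * θ ^ 16 = 1) (hW : ∑ a ∈ range q, wl q g t a ≤ W) (hs : 0 < s)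
    (hρ : (θ * W) ^ d < (q : ℝ) ^ (s : ℝ)) : dimH (EE d q g) ≤ s := by
  refine (dimH_mono (EE_subset d q g)).trans ?_
  rw [dimH_iUnion]
  apply iSup_le
  intro z
  have hiso : Isometry (fun u : Fin d → ℝ => (fun i => (z i : ℝ)) + u) := isometry_add_left _
  rw [hiso.dimH_image]
  apply dimH_le_of_hausdorffMeasure_ne_top
  rw [hausdorff_null d q g hq ht hθ hθt hW (by exact_mod_cast hs) hρ]
  exact ENNReal.zero_ne_top

theorem volume_EE_eq_zero (d q g : ℕ) {s : NNReal} (h : dimH (EE d q g) ≤ s) (hs : s < d) :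
    (volume : Measure (Fin d → ℝ)) (EE d q g) = 0 := by
  have h1 : dimH (EE d q g) < (d : NNReal) := lt_of_le_of_lt h (by exact_mod_cast hs)
  have h2 := hausdorffMeasure_of_dimH_lt h1
  have h3 : (μH[((d : NNReal) : ℝ)] : Measure (Fin d → ℝ)) = volume := by
    have := hausdorffMeasure_pi_real (ι := Fin d)
    simpa using this
  rwa [h3] at h2

end nD

end Pool.Agent.BVDim
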