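import Mathlib
import Pool.Agent.BVDim.Product

set_option autoImplicit false

namespace Pool.Agent.BVDim

open MeasureTheory MeasureTheory.Measure Filter Topology Finset ENNReal WithLp

variable {M q : ℕ} {κ : ℝ} {ψ : ℝ → ℝ} {σ : Measure ℝ}

/-- the absolutely continuous comparison measure -/
noncomputable def lam2 (d : ℕ) (ψ : ℝ → ℝ) : Measure (Fin d → ℝ) :=
  volume.withDensity (fun x => ENNReal.ofReal (∏ i, ψ (x i)))

theorem lam2_ac (d : ℕ) (ψ : ℝ → ℝ) : lam2 d ψ ≪ volume := withDensity_absolutelyContinuous _ _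

theorem prod_cont (d : ℕ) (hψ : IsCutoff κ ψ) : Continuous (fun x : Fin d → ℝ => ∏ i, ψ (x i)) :=
  continuous_finsetProd _ (fun i _ => hψ.cont.comp (continuous_apply i))

theorem prod_int (d : ℕ) (hψ : IsCutoff κ ψ) :
    Integrable (fun x : Fin d → ℝ => ∏ i, ψ (x i)) (volume : Measure (Fin d → ℝ)) :=
  Integrable.fintype_prod (f := fun _ : Fin d => ψ) (μ := fun _ => volume) (fun _ => hψ.integrable)

theorem lam2_finite (d : ℕ) (hψ : IsCutoff κ ψ) : IsFiniteMeasure (lam2 d ψ) := by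
  apply isFiniteMeasure_withDensity_ofReal
  exact (prod_int d hψ).2

theorem charFun_lam2 (d : ℕ) (hψ : IsCutoff κ ψ) (ξ : EuclideanSpace ℝ (Fin d)) :
    charFun ((lam2 d ψ).map (toLp 2)) ξ = ∏ i, Phi M q ψ 0 (ξ i / (2 * Real.pi)) := by
  rw [charFun_apply, ← MeasurableEquiv.coe_toLp, integral_map_equiv]
  unfold lam2
  rw [integral_withDensity_eq_integral_toReal_smul
    (prod_cont d hψ).measurable.ennreal_ofReal (Eventually.of_forall fun _ => ENNReal.ofReal_lt_top)]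
  have h1 : ∀ i : Fin d, Phi M q ψ 0 (ξ i / (2 * Real.pi)) =
      ∫ y : ℝ, (ψ y : ℂ) * Complex.exp ((y * ξ i : ℝ) * Complex.I) := by
    intro i
    rw [Phi_zero_eq]
    congr 1
    funext y
    rw [mul_comm]
    congr 1
    unfold ee
    congr 1
    push_cast
    have : (Real.pi : ℂ) ≠ 0 := by exact_mod_cast Real.pi_ne_zero
    field_simp
  simp_rw [h1]
  rw [← integral_fintype_prod_volume_eq_prod
    (fun (i : Fin d) (y : ℝ) => (ψ y : ℂ) * Complex.exp ((y * ξ i : ℝ) * Complex.I))]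
  congr 1
  funext x
  rw [ENNReal.toReal_ofReal (Finset.prod_nonneg (fun i _ => hψ.nonneg _)), Complex.real_smul,
    Finset.prod_mul_distrib, ← Complex.exp_sum]
  push_cast
  congr 2
  rw [← Finset.sum_mul]
  congr 1
  simp only [MeasurableEquiv.coe_toLp]
  rw [PiLp.inner_apply]
  push_cast
  apply Finset.sum_congr rfl
  intro i _
  simp
  ring

/-- sup norm of a point of `ℝ^d` -/
noncomputable def supn (d : ℕ) (ξ : EuclideanSpace ℝ (Fin d)) : ℝ := ‖(ofLp ξ : Fin d → ℝ)‖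

theorem abs_le_supn {d : ℕ} (ξ : EuclideanSpace ℝ (Fin d)) (i : Fin d) : |ξ i| ≤ supn d ξ := by
  have := norm_le_pi_norm (ofLp ξ : Fin d → ℝ) i
  simpa [supn] using this

theorem exists_eq_supn {d : ℕ} (hd : 0 < d) (ξ : EuclideanSpace ℝ (Fin d)) :
    ∃ i, |ξ i| = supn d ξ := by
  have : Nonempty (Fin d) := ⟨⟨0, hd⟩⟩
  have h1 : (Finset.univ : Finset (Fin d)).Nonempty := Finset.univ_nonempty
  obtain ⟨i, _, hi⟩ := Finset.exists_mem_eq_sup' h1 (fun i => |ξ i|)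
  refine ⟨i, ?_⟩
  apply le_antisymm (abs_le_supn ξ i)
  unfold supn
  rw [pi_norm_le_iff_of_nonneg (abs_nonneg _)]
  intro k
  show |ξ k| ≤ |ξ i|
  have h2 : |ξ k| ≤ (Finset.univ : Finset (Fin d)).sup' h1 (fun i => |ξ i|) :=
    Finset.le_sup' (fun i => |ξ i|) (Finset.mem_univ k)
  rwa [hi] at h2

/-- the closed cone carrying the spectrum -/
def Zset (M d : ℕ) : Set (EuclideanSpace ℝ (Fin d)) :=
  {ξ | ∀ i, 8 * (M : ℝ) * |ξ i| ≤ supn d ξ ∨ supn d ξ ≤ 4 * (M : ℝ) * |ξ i|}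

/-- the spectrum of the difference of the two measures lies in the cone -/
theorem spectrum (hM : 1 ≤ M) (hψ : IsCutoff κ ψ) (hq : 2 * (M : ℝ) ≤ κ * ((q : ℝ) - 1))
    (hκM : 16 * (M : ℝ) * κ ≤ 1) (hκ0 : 0 < κ) (hq1 : 2 ≤ q) (hσ : IsLimit M q ψ σ) (d : ℕ) (hd : 0 < d)
    (ξ : EuclideanSpace ℝ (Fin d)) (hξ : ξ ∉ Zset M d) :
    ∏ i, charFun σ (2 * Real.pi * ξ i) = ∏ i, Phi M q ψ 0 (ξ i) := by
  have hMr : (1 : ℝ) ≤ M := by exact_mod_cast hM
  have hκ : κ ≤ 1 / 2 := by nlinarith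
  have hκ16 : κ ≤ 1 / 16 := by nlinarith
  have hqr : (2 : ℝ) ≤ q := by exact_mod_cast hq1
  set S := supn d ξ with hS
  obtain ⟨i0, hi0⟩ := exists_eq_supn hd ξ
  by_cases hS2 : S ≤ 1 / 2
  · apply Finset.prod_congr rfl
    intro i _
    rw [hσ.char 0]
    rw [pow_zero]
    exact (abs_le_supn ξ i).trans hS2
  · push Not at hS2
    have hR : ∏ i, Phi M q ψ 0 (ξ i) = 0 := by
      apply Finset.prod_eq_zero (Finset.mem_univ i0)
      apply Phi_supp hM hψ hq 0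
      rw [pow_zero, mul_one, hi0]
      linarith
    rw [hR]
    by_contra hne
    have hne' : ∀ i, charFun σ (2 * Real.pi * ξ i) ≠ 0 := by
      intro i
      exact (Finset.prod_ne_zero_iff.1 hne) i (Finset.mem_univ i)
    -- choose the scale
    have hex : ∃ J : ℕ, S ≤ (q : ℝ) ^ (J + 1) / 2 := by
      obtain ⟨J, hJ⟩ := pow_unbounded_of_one_lt (2 * S) (by linarith : (1 : ℝ) < q)
      refine ⟨J, ?_⟩
      have h1 : (q : ℝ) ^ J ≤ (q : ℝ) ^ (J + 1) := pow_le_pow_right₀ (by linarith) (by omega)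
      linarith
    classical
    obtain ⟨J, hJ1, hJ2⟩ : ∃ J : ℕ, S ≤ (q : ℝ) ^ (J + 1) / 2 ∧ (q : ℝ) ^ J / 2 < S := by
      refine ⟨Nat.find hex, Nat.find_spec hex, ?_⟩
      rcases Nat.eq_zero_or_pos (Nat.find hex) with h0 | hpos
      · rw [h0, pow_zero]; exact hS2
      · have h1 := Nat.find_min hex (m := Nat.find hex - 1) (by omega)
        rw [not_le] at h1
        rwa [show Nat.find hex - 1 + 1 = Nat.find hex by omega] at h1
    have hqJ : (0 : ℝ) < (q : ℝ) ^ J := by positivity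
    have hn : ∀ i, ∃ n : ℤ, |(n : ℝ)| ≤ 2 * M ∧ |ξ i + n * (q : ℝ) ^ J| < κ * (q : ℝ) ^ J := by
      intro i
      have h1 := hne' i
      rw [hσ.char (J + 1) _ ((abs_le_supn ξ i).trans hJ1), Phi_succ hM hψ] at h1
      obtain ⟨n, hn, hn2⟩ := Finset.exists_ne_zero_of_sum_ne_zero h1
      refine ⟨n, ?_, ?_⟩
      · rw [mem_TT] at hn
        exact_mod_cast hn
      · by_contra hge
        rw [not_lt] at hge
        apply hn2
        rw [Phi_supp hM hψ hq J _ hge, mul_zero]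
    apply hξ
    intro i
    obtain ⟨n0, hn0, hn0'⟩ := hn i0
    obtain ⟨n, hn1, hn2⟩ := hn i
    by_cases hz : n = 0
    · left
      subst hz
      simp only [Int.cast_zero, zero_mul, add_zero] at hn2
      have : 8 * (M : ℝ) * |ξ i| ≤ 8 * M * (κ * (q : ℝ) ^ J) :=
        mul_le_mul_of_nonneg_left hn2.le (by positivity)
      nlinarith
    · right
      have h1 : (1 : ℝ) ≤ |(n : ℝ)| := by exact_mod_cast Int.one_le_abs hz
      have h2 : |(n : ℝ) * (q : ℝ) ^ J| ≤ |ξ i + n * (q : ℝ) ^ J| + |ξ i| := by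
        calc |(n : ℝ) * (q : ℝ) ^ J| = |(ξ i + n * (q : ℝ) ^ J) - ξ i| := by ring_nf
          _ ≤ _ := abs_sub _ _
      rw [abs_mul, abs_of_pos hqJ] at h2
      have h3 : (q : ℝ) ^ J * (15 / 16) ≤ |ξ i| := by nlinarith
      have h4 : |ξ i0| ≤ |ξ i0 + n0 * (q : ℝ) ^ J| + |(n0 : ℝ) * (q : ℝ) ^ J| := by
        calc |ξ i0| = |(ξ i0 + n0 * (q : ℝ) ^ J) - n0 * (q : ℝ) ^ J| := by ring_nf
          _ ≤ _ := abs_sub _ _
      rw [abs_mul, abs_of_pos hqJ, hi0] at h4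
      have h5 : S ≤ (2 * M + 1 / 16) * (q : ℝ) ^ J := by nlinarith
      nlinarith

end Pool.Agent.BVDim
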