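import Mathlib
import Pool.Agent.BVDim.Support

set_option autoImplicit false

namespace Pool.Agent.BVDim

open MeasureTheory Filter Topology WithLp Metric
open scoped ContDiff

theorem continuous_supn (d : ℕ) : Continuous (supn d) :=
  (PiLp.continuous_ofLp 2 _).norm

theorem supn_smul (d : ℕ) (c : ℝ) (ξ : EuclideanSpace ℝ (Fin d)) :
    supn d (c • ξ) = |c| * supn d ξ := by
  unfold supn
  rw [ofLp_smul, norm_smul, Real.norm_eq_abs]

theorem supn_pos {d : ℕ} {ξ : EuclideanSpace ℝ (Fin d)} (h : ξ ≠ 0) : 0 < supn d ξ := by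
  unfold supn
  rw [norm_pos_iff]
  intro h0
  apply h
  ext i
  exact congrFun h0 i

theorem isClosed_Zset (M d : ℕ) : IsClosed (Zset M d) := by
  have : Zset M d = ⋂ i : Fin d, ({ξ | 8 * (M : ℝ) * |ξ i| ≤ supn d ξ} ∪
      {ξ | supn d ξ ≤ 4 * (M : ℝ) * |ξ i|}) := by
    ext ξ
    simp [Zset]
  rw [this]
  apply isClosed_iInter
  intro i
  have h1 : Continuous (fun ξ : EuclideanSpace ℝ (Fin d) => |ξ i|) := by fun_prop
  apply IsClosed.union
  · exact isClosed_le (continuous_const.mul h1) (continuous_supn d)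
  · exact isClosed_le (continuous_supn d) (continuous_const.mul h1)

theorem Zset_smul {M d : ℕ} {c : ℝ} (hc : c ≠ 0) (ξ : EuclideanSpace ℝ (Fin d)) :
    c • ξ ∈ Zset M d ↔ ξ ∈ Zset M d := by
  have hc' : 0 < |c| := abs_pos.2 hc
  unfold Zset
  simp only [Set.mem_ofPred_eq, supn_smul, PiLp.smul_apply, smul_eq_mul, abs_mul]
  apply forall_congr'
  intro i
  have e1 : 8 * (M : ℝ) * (|c| * |ξ i|) = |c| * (8 * (M : ℝ) * |ξ i|) := by ring
  have e2 : 4 * (M : ℝ) * (|c| * |ξ i|) = |c| * (4 * (M : ℝ) * |ξ i|) := by ring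
  rw [e1, e2, mul_le_mul_iff_right₀ hc', mul_le_mul_iff_right₀ hc']

/-- every plane contains a unit vector outside the cone -/
theorem plane_meets_compl {M d : ℕ} (hM : 1 ≤ M) (hd : 0 < d) (L : Submodule ℝ (EuclideanSpace ℝ (Fin d)))
    (hL : Module.finrank ℝ L = 2) : ∃ ξ ∈ L, ‖ξ‖ = 1 ∧ ξ ∉ Zset M d := by
  have hMr : (1 : ℝ) ≤ M := by exact_mod_cast hM
  have hrank : 1 < Module.rank ℝ L := by
    rw [← Module.finrank_eq_rank, hL]; norm_num
  have hpre : IsPreconnected (sphere (0 : L) 1) := isPreconnected_sphere hrank 0 1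
  have hnt : Nontrivial L := by
    apply Module.nontrivial_of_finrank_pos (R := ℝ); rw [hL]; norm_num
  obtain ⟨v, hv⟩ := exists_ne (0 : L)
  have hunit : ∀ v : L, v ≠ 0 → (‖v‖⁻¹ • v) ∈ sphere (0 : L) 1 := by
    intro v hv
    rw [mem_sphere_zero_iff_norm, norm_smul, norm_inv, norm_norm, inv_mul_cancel₀]
    exact norm_ne_zero_iff.2 hv
  set v0 : L := ‖v‖⁻¹ • v with hv0
  have hv0s : v0 ∈ sphere (0 : L) 1 := hunit v hv
  obtain ⟨i, hi⟩ := exists_eq_supn hd (v0 : EuclideanSpace ℝ (Fin d))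
  -- a vector of the plane with vanishing coordinate
  let f : L →ₗ[ℝ] ℝ := (EuclideanSpace.proj (𝕜 := ℝ) i).toLinearMap.comp L.subtype
  have hker : LinearMap.ker f ≠ ⊥ := by
    apply LinearMap.ker_ne_bot_of_finrank_lt
    rw [hL]; simp
  obtain ⟨u, hu, hu0⟩ := (Submodule.ne_bot_iff _).1 hker
  have hu' : (u : EuclideanSpace ℝ (Fin d)) i = 0 := hu
  set v1 : L := ‖u‖⁻¹ • u with hv1
  have hv1s : v1 ∈ sphere (0 : L) 1 := hunit u hu0
  let g : L → ℝ := fun w => |(w : EuclideanSpace ℝ (Fin d)) i| / supn d w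
  have hg : ContinuousOn g (sphere (0 : L) 1) := by
    apply ContinuousOn.div
    · have : Continuous (fun w : L => |(w : EuclideanSpace ℝ (Fin d)) i|) := by fun_prop
      exact this.continuousOn
    · exact ((continuous_supn d).comp continuous_subtype_val).continuousOn
    · intro w hw
      apply ne_of_gt
      apply supn_pos
      intro h0
      have : w = 0 := by exact_mod_cast h0
      rw [this] at hw
      simp at hw
  have hg0 : g v0 = 1 := by
    show |(v0 : EuclideanSpace ℝ (Fin d)) i| / supn d v0 = 1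
    rw [hi]
    apply div_self
    apply ne_of_gt
    apply supn_pos
    intro h0
    have : v0 = 0 := by exact_mod_cast h0
    rw [this] at hv0s
    simp at hv0s
  have hg1 : g v1 = 0 := by
    show |(v1 : EuclideanSpace ℝ (Fin d)) i| / supn d v1 = 0
    have : (v1 : EuclideanSpace ℝ (Fin d)) i = 0 := by
      rw [hv1]
      simp [hu']
    rw [this, abs_zero, zero_div]
  have hiv := hpre.intermediate_value hv1s hv0s hg
  rw [hg0, hg1] at hiv
  obtain ⟨w, hw, hgw⟩ := hiv (show (3 : ℝ) / (16 * M) ∈ Set.Icc 0 1 by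
    constructor
    · positivity
    · rw [div_le_one (by positivity)]; linarith)
  refine ⟨w, w.2, ?_, ?_⟩
  · have := mem_sphere_zero_iff_norm.1 hw
    exact_mod_cast this
  · have hsp : 0 < supn d (w : EuclideanSpace ℝ (Fin d)) := by
      apply supn_pos
      intro h0
      have : w = 0 := by exact_mod_cast h0
      rw [this] at hw
      simp at hw
    have hgw' : |(w : EuclideanSpace ℝ (Fin d)) i| = 3 / (16 * M) * supn d w := by
      have h1 : |(w : EuclideanSpace ℝ (Fin d)) i| / supn d w = 3 / (16 * M) := hgw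
      rwa [div_eq_iff hsp.ne'] at h1
    intro hZ
    rcases hZ i with h | h
    · rw [hgw'] at h
      have : 8 * (M : ℝ) * (3 / (16 * M) * supn d w) = 3 / 2 * supn d w := by field_simp; ring
      rw [this] at h
      linarith
    · rw [hgw'] at h
      have : 4 * (M : ℝ) * (3 / (16 * M) * supn d w) = 3 / 4 * supn d w := by field_simp; ring
      rw [this] at h
      linarith

/-- inclusion of `ℝ^d` in `ℂ^d` -/
noncomputable def toC (d : ℕ) : EuclideanSpace ℝ (Fin d) →ₗ[ℝ] EuclideanSpace ℂ (Fin d) where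
  toFun ξ := toLp 2 (fun i => (ξ i : ℂ))
  map_add' ξ η := by ext i; simp
  map_smul' c ξ := by ext i; simp

theorem toC_apply (d : ℕ) (ξ : EuclideanSpace ℝ (Fin d)) (i : Fin d) : toC d ξ i = (ξ i : ℂ) := rfl

/-- the section -/
noncomputable def ww (d : ℕ) (i0 : Fin d) (χ : EuclideanSpace ℝ (Fin d) → ℝ)
    (ξ : EuclideanSpace ℝ (Fin d)) : EuclideanSpace ℂ (Fin d) :=
  EuclideanSpace.single i0 (1 : ℂ) + χ ξ • (Complex.I • toC d ξ)

theorem ww_smooth (d : ℕ) (i0 : Fin d) {χ : EuclideanSpace ℝ (Fin d) → ℝ} (hχ : ContDiff ℝ ∞ χ) :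
    ContDiff ℝ ∞ (ww d i0 χ) := by
  have h1 : ContDiff ℝ ∞ (fun ξ => toC d ξ) :=
    (LinearMap.toContinuousLinearMap (toC d)).contDiff
  have h2 : ContDiff ℝ ∞ (fun ξ => Complex.I • toC d ξ) := h1.const_smul Complex.I
  exact contDiff_const.add (hχ.smul h2)

theorem ww_i0 (d : ℕ) (i0 : Fin d) (χ : EuclideanSpace ℝ (Fin d) → ℝ) (ξ : EuclideanSpace ℝ (Fin d)) :
    ww d i0 χ ξ i0 = 1 + (χ ξ * ξ i0 : ℝ) * Complex.I := by
  unfold ww
  simp [toC_apply]
  ring

theorem ww_ne (d : ℕ) (i0 i : Fin d) (hi : i ≠ i0) (χ : EuclideanSpace ℝ (Fin d) → ℝ)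
    (ξ : EuclideanSpace ℝ (Fin d)) :
    ww d i0 χ ξ i = (χ ξ * ξ i : ℝ) * Complex.I := by
  unfold ww
  simp [toC_apply, hi]
  ring

theorem ww_ne_zero (d : ℕ) (i0 : Fin d) (χ : EuclideanSpace ℝ (Fin d) → ℝ)
    (ξ : EuclideanSpace ℝ (Fin d)) : ww d i0 χ ξ ≠ 0 := by
  intro h
  have h1 := congrArg (fun v : EuclideanSpace ℂ (Fin d) => (v i0).re) h
  simp only [ww_i0] at h1
  simp at h1

/-- the basis vector lies in the cone -/
theorem single_mem_Zset (M d : ℕ) (hM : 1 ≤ M) (i0 : Fin d) (c : ℝ) :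
    EuclideanSpace.single i0 c ∈ Zset M d := by
  have hMr : (1 : ℝ) ≤ M := by exact_mod_cast hM
  have hd : 0 < d := by have := i0.2; omega
  have hs : supn d (EuclideanSpace.single i0 c) = |c| := by
    obtain ⟨i, hi⟩ := exists_eq_supn hd (EuclideanSpace.single i0 c)
    apply le_antisymm
    · rw [← hi]
      by_cases h : i = i0
      · subst h; simp
      · simp [h]
    · have := abs_le_supn (EuclideanSpace.single i0 c) i0
      simpa using this
  intro i
  rw [hs]
  by_cases h : i = i0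
  · right
    subst h
    simp
    nlinarith [abs_nonneg c]
  · left
    simp [h]

/-- if `χ ξ > 0` and `ξ` is not a multiple of the basis vector then the lines at `ξ` and `-ξ` are
different -/
theorem inf_eq_bot {d : ℕ} {i0 : Fin d} {χ : EuclideanSpace ℝ (Fin d) → ℝ} (hχ0 : ∀ ξ, 0 ≤ χ ξ)
    {ξ : EuclideanSpace ℝ (Fin d)} (hχ : 0 < χ ξ) {k : Fin d} (hk : k ≠ i0) (hξk : ξ k ≠ 0)
    {v : EuclideanSpace ℂ (Fin d)} (h1 : v ∈ Submodule.span ℂ {ww d i0 χ ξ})
    (h2 : v ∈ Submodule.span ℂ {ww d i0 χ (-ξ)}) : v = 0 := by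
  rw [Submodule.mem_span_singleton] at h1 h2
  obtain ⟨a, rfl⟩ := h1
  obtain ⟨b, hb⟩ := h2
  have e0 := congrArg (fun v : EuclideanSpace ℂ (Fin d) => v i0) hb
  have ek := congrArg (fun v : EuclideanSpace ℂ (Fin d) => v k) hb
  simp only [PiLp.smul_apply, smul_eq_mul, ww_i0, ww_ne _ _ _ hk, PiLp.neg_apply] at e0 ek
  set c := χ ξ with hc
  set c' := χ (-ξ) with hc'
  have hξkc : (ξ k : ℂ) ≠ 0 := by exact_mod_cast hξk
  have h3 : a * (c : ℂ) = -(b * (c' : ℂ)) := by
    have h4 : (ξ k : ℂ) * Complex.I * (a * (c : ℂ)) = (ξ k : ℂ) * Complex.I * (-(b * (c' : ℂ))) := by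
      push_cast at ek
      linear_combination -ek
    exact mul_left_cancel₀ (mul_ne_zero hξkc Complex.I_ne_zero) h4
  have h5 : a = b := by
    push_cast at e0
    linear_combination -e0 - (ξ i0 : ℂ) * Complex.I * h3
  rw [← h5] at h3
  have h6 : a * ((c + c' : ℝ) : ℂ) = 0 := by
    push_cast
    linear_combination h3
  have h7 : ((c + c' : ℝ) : ℂ) ≠ 0 := by
    have : 0 < c + c' := add_pos_of_pos_of_nonneg hχ (hχ0 _)
    exact_mod_cast this.ne'
  have h8 : a = 0 := (mul_eq_zero.1 h6).resolve_right h7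
  rw [h8, zero_smul]

end Pool.Agent.BVDim
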