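import Mathlib

set_option autoImplicit false
set_option linter.unusedSectionVars false

namespace Pool.Agent.BVDim

open MeasureTheory VectorMeasure Set

variable {X V : Type*} [MeasurableSpace X] [NormedAddCommGroup V] [NormedSpace ℝ V]
  [NormedSpace ℂ V] [CompleteSpace V] [IsScalarTower ℝ ℂ V]

/-- the vector measure `lam * v` -/
noncomputable def cst (lam : Measure X) (v : V) : VectorMeasure X V := lam.withDensityᵥ (fun _ => v)

theorem cst_apply (lam : Measure X) [IsFiniteMeasure lam] (v : V) {s : Set X} (hs : MeasurableSet s) :
    cst lam v s = (lam.real s) • v := by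
  unfold cst
  rw [withDensityᵥ_apply (integrable_const v) hs]
  simp

theorem variation_cst (lam : Measure X) [IsFiniteMeasure lam] (v : V) (hv : ‖v‖ = 1) :
    (cst lam v).variation = lam := by
  unfold cst
  rw [Measure.variation_withDensityᵥ (integrable_const v)]
  have : (fun _ : X => ‖v‖ₑ) = fun _ => 1 := by
    funext x
    rw [← ofReal_norm, hv, ENNReal.ofReal_one]
  rw [this]
  exact withDensity_one

theorem integral_cst (lam : Measure X) [IsFiniteMeasure lam] (v : V) (hv : ‖v‖ = 1) (f : X → ℂ)
    (hf : Integrable f lam) :
    (cst lam v).integral f (ContinuousLinearMap.lsmul ℝ ℂ) = (∫ x, f x ∂lam) • v := by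
  have hvar := variation_cst lam v hv
  have key : ∀ μ : VectorMeasure X V, μ.variation = lam → (∀ s, MeasurableSet s → μ s = (lam.real s) • v) →
      μ.integral f (ContinuousLinearMap.lsmul ℝ ℂ) = (∫ x, f x ∂μ.variation) • v := by
    intro μ hμ hμs
    have hf' : Integrable f μ.variation := by rw [hμ]; exact hf
    have hfin : IsFiniteMeasure μ.variation := by rw [hμ]; infer_instance
    apply hf'.induction (P := fun f => μ.integral f (ContinuousLinearMap.lsmul ℝ ℂ) =
      (∫ x, f x ∂μ.variation) • v)
    · intro c s hs hc
      rw [VectorMeasure.integral_indicator_const _ hs, hμs s hs]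
      rw [MeasureTheory.integral_indicator_const _ hs, hμ]
      simp only [ContinuousLinearMap.lsmul_apply]
      rw [smul_comm, smul_assoc]
    · intro f g _ f_int g_int hf hg
      rw [VectorMeasure.integral_add f_int g_int, MeasureTheory.integral_add' f_int g_int, hf, hg,
        add_smul]
    · apply isClosed_eq
      · exact VectorMeasure.continuous_integral
      · exact (MeasureTheory.continuous_integral).smul continuous_const
    · intro f g hfg _ hf
      rw [← VectorMeasure.integral_congr_ae hfg, ← MeasureTheory.integral_congr_ae hfg, hf]
  have := key (cst lam v) hvar (fun s hs => cst_apply lam v hs)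
  rw [hvar] at this
  exact this

end Pool.Agent.BVDim
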